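import Pool.Agent.H59.PO.Defs

/-! Lifting elements of order `q`. -/

set_option autoImplicit false

open scoped commutatorElement

namespace Pool.Agent.H59.SD

open Pool.Agent.H76.MB (LF rad)

universe u

variable {G : Type u} [Group G]

/-- Proof: `x = mk g`, `orderOf g = q ^ a * m` with `q ∤ m`, choose `k` with `m * k ≡ 1 (mod q)`; `g ^ (m * k)` is the lift. -/
theorem lift_q {q : ℕ} (hq : q.Prime) (ht : ∀ g : G, IsOfFinOrder g) (x : G ⧸ rad G)
    (hx : x ^ q = 1) : ∃ (g : G) (e : ℕ), g ^ q ^ e = 1 ∧ QuotientGroup.mk' (rad G) g = x := by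
  obtain ⟨g, rfl⟩ := QuotientGroup.mk'_surjective (rad G) x
  have hn : orderOf g ≠ 0 := (orderOf_pos_iff.mpr (ht g)).ne'
  obtain ⟨a, m, hm, hnm⟩ := Nat.exists_eq_pow_mul_and_not_dvd hn q hq.ne_one
  have hcop : Nat.Coprime m q := ((Nat.Prime.coprime_iff_not_dvd hq).mpr hm).symm
  obtain ⟨k, hk⟩ := Nat.exists_mul_mod_eq_one_of_coprime hcop hq.one_lt
  refine ⟨g ^ (m * k), a, ?_, ?_⟩
  · rw [← pow_mul]
    have h1 : m * k * q ^ a = orderOf g * k := by
      rw [hnm]
      ring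
    rw [h1, pow_mul, pow_orderOf_eq_one, one_pow]
  · rw [map_pow]
    have h2 : m * k = q * (m * k / q) + 1 := by
      have := Nat.div_add_mod (m * k) q
      omega
    rw [h2, pow_add, pow_mul, hx, one_pow, one_mul, pow_one]

end Pool.Agent.H59.SD
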