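import Pool.Agent.H59.PO.Defs

/-! The quotient by the locally finite radical. -/

set_option autoImplicit false

open scoped commutatorElement

namespace Pool.Agent.H59.SD

open Pool.Agent.H76.MB (LF rad)
open Pool.Agent.H59.PO (Spl)

universe u

variable {G : Type u} [Group G]

private theorem rad_le (φ : MulAut G) : (rad G).map φ.toMonoidHom ≤ rad G := by
  rintro _ ⟨g, hg, rfl⟩
  obtain ⟨N, ⟨hN, hLF⟩, hgN⟩ := Pool.Agent.H76.MB.mem_rad.mp hg
  refine Pool.Agent.H76.MB.mem_rad.mpr
    ⟨N.map φ.toMonoidHom, ⟨hN.map φ.toMonoidHom φ.surjective, ?_⟩, ⟨g, hgN, rfl⟩⟩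
  exact hLF.of_surj (φ.toMonoidHom.subgroupMap N) (MonoidHom.subgroupMap_surjective _ _)

/-- Proof: the image of a locally finite normal subgroup under an automorphism is one (`mem_rad`, `LF.of_surj`), for `φ` and
`φ.symm`. -/
theorem rad_map (φ : MulAut G) : (rad G).map φ.toMonoidHom = rad G := by
  apply le_antisymm (rad_le φ)
  intro x hx
  have h1 : φ.symm x ∈ rad G := rad_le φ.symm ⟨x, hx, rfl⟩
  exact ⟨φ.symm x, h1, φ.apply_symm_apply x⟩

/-- The induced automorphism of `G ⧸ rad G` (`QuotientGroup.congr`). -/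
noncomputable def bar (φ : MulAut G) : MulAut (G ⧸ rad G) :=
  QuotientGroup.congr (rad G) (rad G) φ (rad_map φ)

/-- Proof: induction on `i`, `QuotientGroup.congr_mk`. -/
theorem bar_pow (φ : MulAut G) (i : ℕ) (x : G) :
    (bar φ ^ i) (QuotientGroup.mk' (rad G) x) = QuotientGroup.mk' (rad G) ((φ ^ i) x) := by
  induction i generalizing x with
  | zero => rfl
  | succ i ih =>
    have h : bar φ (QuotientGroup.mk' (rad G) x) = QuotientGroup.mk' (rad G) (φ x) := rfl
    rw [pow_succ, pow_succ, MulAut.mul_apply, MulAut.mul_apply, h, ih]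

/-- Proof: orders of images divide orders; `bar_pow`; the orbit subgroup is the image of the orbit subgroup. -/
theorem spl_bar {p : ℕ} {φ : MulAut G} (hS : Spl p φ) : Spl p (bar φ) where
  prime := hS.prime
  cop g := by
    obtain ⟨x, rfl⟩ := QuotientGroup.mk'_surjective _ g
    exact (hS.cop x).coprime_dvd_left (orderOf_map_dvd _ x)
  pow := by
    ext g
    obtain ⟨x, rfl⟩ := QuotientGroup.mk'_surjective _ g
    rw [bar_pow, hS.pow]
    rfl
  split g := by
    obtain ⟨x, rfl⟩ := QuotientGroup.mk'_surjective _ g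
    have h := congrArg (QuotientGroup.mk' (rad G)) (hS.split x)
    rw [map_list_prod, List.map_map, map_one] at h
    rw [← h]
    congr 1
    apply List.map_congr_left
    intro i _
    exact bar_pow φ i x
  nilp g := by
    obtain ⟨x, rfl⟩ := QuotientGroup.mk'_surjective _ g
    have h1 : Subgroup.closure (Set.range (fun i : Fin p => (bar φ ^ (i : ℕ)) (QuotientGroup.mk' (rad G) x))) =
        (Subgroup.closure (Set.range (fun i : Fin p => (φ ^ (i : ℕ)) x))).map (QuotientGroup.mk' (rad G)) := by
      rw [MonoidHom.map_closure, ← Set.range_comp]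
      congr 2
      funext i
      exact bar_pow φ i x
    rw [h1]
    have := hS.nilp x
    exact Group.nilpotent_of_surjective ((QuotientGroup.mk' (rad G)).subgroupMap _)
      (MonoidHom.subgroupMap_surjective _ _)

end Pool.Agent.H59.SD
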