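import Pool.Agent.H59.SD.Gam
import Pool.Agent.H59.PO.Cond
import Pool.Agent.H59.SD.Quo
import Pool.Agent.H59.SD.Lift
import Pool.Agent.H81.SC.Ncl
import Pool.Agent.H83.BF.Local

/-! Elements of prime power order lie in the locally finite radical when `[g, [g, φ^i(g)]]` lies in the invariant normal
closure of `g ^ q`. -/

set_option autoImplicit false

open scoped commutatorElement

namespace Pool.Agent.H59.SD

open Pool.Agent.H76.MB (LF rad)
open Pool.Agent.H83.BF (pw)
open Pool.Agent.H59.PO (Spl Orb pow_orb)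
open H81.SC (cj cm cm_eq cm_eq_one_iff cm_of)

universe u

theorem LF_nil {G : Type u} [Group G] (ht : ∀ g : G, IsOfFinOrder g) [Group.IsNilpotent G] :
    LF G := by
  apply Pool.Agent.H76.MB.LF_of_fg
  intro H hH
  apply H81.SC.finite_of_nilpotent
  · exact (Group.fg_iff_subgroup_fg H).2 hH
  · exact Pool.Agent.H76.MB.fin_sub ht H

variable {G : Type u} [Group G]

/-- `[g, [g, φ^i(g)]]` lies in the normal closure of the `φ^j(g^q)`, or `H_g` is powerful, for `q`-elements `g` -/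
def Two (p : ℕ) (φ : MulAut G) (q : ℕ) : Prop :=
  ∀ g : G, (∃ e : ℕ, g ^ q ^ e = 1) →
    (∀ i : ℕ, ⁅g, ⁅g, (φ ^ i) g⁆⁆ ∈
      Subgroup.normalClosure (Set.range fun j : ℕ => (φ ^ j) (g ^ q))) ∨
    ⁅Orb p φ g, Orb p φ g⁆ ≤ pw (if q = 2 then 4 else q) (Orb p φ g)

/-- the law in the quotient by the radical -/
theorem law_bar {p : ℕ} {φ : MulAut G} (hS : Spl p φ) {q : ℕ} (hq : q.Prime) (H : Two p φ q)
    (x : G ⧸ rad G) (hx : x ^ q = 1) (i : ℕ) : Commute (cm x ((bar φ ^ i) x)) x := by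
  have ht : ∀ g : G, IsOfFinOrder g := fun g => H81.SC.ord_ne hS.prime (hS.cop g)
  have hx' : x⁻¹ ^ q = 1 := by rw [inv_pow, hx, inv_one]
  obtain ⟨g, e, hg, hgx⟩ := lift_q hq ht x⁻¹ hx'
  have h1 : ⁅g, ⁅g, (φ ^ i) g⁆⁆ ∈
      Subgroup.normalClosure (Set.range fun j : ℕ => (φ ^ j) (g ^ q)) := by
    rcases H g ⟨e, hg⟩ with h | h
    · exact h i
    · have h0 := pow_orb hS hq g e hg h
        (Subgroup.normalClosure (Set.range fun j : ℕ => (φ ^ j) (g ^ q)))
        (fun j => Subgroup.subset_normalClosure ⟨j, rfl⟩) i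
      rw [commutatorElement_def]
      exact mul_mem (Subgroup.normalClosure_normal.conj_mem _ h0 g) (inv_mem h0)
  have h2 : Subgroup.normalClosure (Set.range fun j : ℕ => (φ ^ j) (g ^ q)) ≤ rad G := by
    have hn : (rad G).Normal := Pool.Agent.H76.MB.rad_normal G
    apply Subgroup.normalClosure_le_normal
    rintro _ ⟨j, rfl⟩
    apply (QuotientGroup.eq_one_iff (N := rad G) _).1
    show QuotientGroup.mk' (rad G) ((φ ^ j) (g ^ q)) = 1
    rw [← bar_pow, map_pow, hgx, hx', map_one]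
  have h3 : QuotientGroup.mk' (rad G) ⁅g, ⁅g, (φ ^ i) g⁆⁆ = 1 :=
    (QuotientGroup.eq_one_iff (N := rad G) _).2 (h2 h1)
  rw [map_commutatorElement, map_commutatorElement, ← bar_pow, hgx,
    commutatorElement_eq_one_iff_commute] at h3
  have h4 : ⁅x⁻¹, (bar φ ^ i) x⁻¹⁆ = cm x ((bar φ ^ i) x) := by
    rw [map_inv, commutatorElement_def, inv_inv, inv_inv]
    unfold cm
    rfl
  rw [h4] at h3
  have h5 := h3.inv_left
  rw [inv_inv] at h5
  exact h5.symm

theorem cop_bar {r : ℕ} (hr : r.Prime) (ht : ∀ g : G, IsOfFinOrder g)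
    (h : ∀ (n : ℕ) (g : G), g ^ r ^ n = 1 → g ∈ rad G) (y : G ⧸ rad G) :
    Nat.Coprime (orderOf y) r := by
  by_contra hc
  have h1 : r ∣ orderOf y := by
    by_contra hd
    exact hc ((Nat.Prime.coprime_iff_not_dvd hr).2 hd).symm
  obtain ⟨m, hm⟩ := h1
  have hfin : IsOfFinOrder y := by
    obtain ⟨g, rfl⟩ := QuotientGroup.mk'_surjective (rad G) y
    exact MonoidHom.isOfFinOrder (QuotientGroup.mk' (rad G)) (ht g)
  have hpos : 0 < orderOf y := orderOf_pos_iff.2 hfin
  have hm0 : 0 < m := by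
    rcases Nat.eq_zero_or_pos m with h0 | h0
    · rw [h0, mul_zero] at hm
      omega
    · exact h0
  have h2 : (y ^ m) ^ r = 1 := by
    rw [← pow_mul, mul_comm, ← hm, pow_orderOf_eq_one]
  obtain ⟨g, e, hg, hgy⟩ := lift_q hr ht (y ^ m) h2
  have h3 : y ^ m = 1 := by
    rw [← hgy]
    exact (QuotientGroup.eq_one_iff (N := rad G) g).2 (h e g hg)
  have h4 := orderOf_dvd_of_pow_eq_one h3
  have h5 := Nat.le_of_dvd hm0 h4
  have h6 := hr.two_le
  rw [hm] at h5
  nlinarith

theorem triv_bar (ht : ∀ g : G, IsOfFinOrder g) (w : G ⧸ rad G)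
    (hw : ∀ g : G ⧸ rad G, Commute w (cj w g)) : w = 1 := by
  have h3 : ∀ g : G ⧸ rad G, Commute w (g * w * g⁻¹) := by
    intro g
    have h := hw g⁻¹
    unfold cj at h
    rwa [inv_inv] at h
  have h4 := Pool.Agent.H83.BF.normalClosure_singleton_comm w h3
  have h5 : LF (Subgroup.normalClosure {w}) := by
    refine Pool.Agent.H76.MB.LF_of_comm (fun a b => Subtype.ext (h4 a a.2 b b.2)) ?_
    refine Pool.Agent.H76.MB.fin_sub ?_ _
    intro g
    obtain ⟨a, rfl⟩ := QuotientGroup.mk'_surjective (rad G) g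
    exact MonoidHom.isOfFinOrder (QuotientGroup.mk' (rad G)) (ht a)
  have h6 := Pool.Agent.H76.MB.rad_quot G (Subgroup.normalClosure {w}) inferInstance h5
  have h7 : w ∈ Subgroup.normalClosure {w} := Subgroup.subset_normalClosure rfl
  rwa [h6, Subgroup.mem_bot] at h7

theorem bar_one {p : ℕ} {φ : MulAut G} (hS : Spl p φ)
    (r2 : ∀ (n : ℕ) (g : G), g ^ 2 ^ n = 1 → g ∈ rad G)
    {q : ℕ} (hq : q.Prime) (h2 : q ≠ 2) (H : Two p φ q) (x : G ⧸ rad G) (hx : x ^ q = 1) :
    x = 1 := by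
  have ht : ∀ g : G, IsOfFinOrder g := fun g => H81.SC.ord_ne hS.prime (hS.cop g)
  have hB := spl_bar hS
  have ho : ∀ y : G ⧸ rad G, Nat.Coprime (orderOf y) 2 := cop_bar Nat.prime_two ht r2
  by_cases h1 : bar φ = 1
  · apply H81.SC.eq_one_of_pow (p := p) (hB.cop x)
    have h3 := hB.split x
    rw [h1] at h3
    have h4 : (fun i : ℕ => ((1 : MulAut (G ⧸ rad G)) ^ i) x) = fun _ => x := by
      funext i
      rw [one_pow]
      rfl
    rw [h4, List.map_const', List.prod_replicate, List.length_range] at h3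
    exact h3
  · have : Fact p.Prime := ⟨hS.prime⟩
    have hord : orderOf (bar φ) = p := orderOf_eq_prime hB.pow h1
    have h3 := H81.SC.ncl (x := x) fun g y h =>
      firstX hB.prime hB.cop ho hord hB.split hB.nilp hq h2 (triv_bar ht)
        (fun g i hg => law_bar hS hq H g hg i) x g y h hx
    have h4 : Group.IsNilpotent (Subgroup.normalClosure {x}) :=
      Subgroup.isNilpotent_of_lowerCentralSeries_eq_bot h3
    have h5 : LF (Subgroup.normalClosure {x}) := by
      apply LF_nil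
      apply Pool.Agent.H76.MB.fin_sub
      intro y
      exact H81.SC.ord_ne hB.prime (hB.cop y)
    have h6 := Pool.Agent.H76.MB.rad_quot G (Subgroup.normalClosure {x}) inferInstance h5
    have h7 : x ∈ Subgroup.normalClosure {x} := Subgroup.subset_normalClosure rfl
    rwa [h6, Subgroup.mem_bot] at h7

theorem mem_rad_two {p : ℕ} {φ : MulAut G} (hS : Spl p φ)
    (r2 : ∀ (n : ℕ) (g : G), g ^ 2 ^ n = 1 → g ∈ rad G)
    {q : ℕ} (hq : q.Prime) (h2 : q ≠ 2) (H : Two p φ q) :
    ∀ (n : ℕ) (g : G), g ^ q ^ n = 1 → g ∈ rad G := by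
  have key : ∀ (n : ℕ) (x : G ⧸ rad G), x ^ q ^ n = 1 → x = 1 := by
    intro n
    induction n with
    | zero =>
      intro x hx
      rwa [pow_zero, pow_one] at hx
    | succ n ih =>
      intro x hx
      rw [pow_succ, pow_mul] at hx
      have hx2 : (x ^ q) ^ q ^ n = 1 := by
        rw [← pow_mul, mul_comm, pow_mul]
        exact hx
      exact bar_one hS r2 hq h2 H x (ih _ hx2)
  intro n g hg
  apply (QuotientGroup.eq_one_iff (N := rad G) g).1
  apply key n (QuotientGroup.mk' (rad G) g)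
  rw [← map_pow, hg, map_one]

end Pool.Agent.H59.SD
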