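import Pool.Agent.H59.SD.Fin

/-! Powers of a product in class two. -/

set_option autoImplicit false

namespace Pool.Agent.H59.SD

open H81.SC (cj cm cj_eq cm_eq)

variable {Γ : Type*} [Group Γ]

theorem pow_swap {x a d : Γ} (h : a * x = x * a * d) (da : Commute d a) (n : ℕ) :
    a ^ n * x = x * a ^ n * d ^ n := by
  induction n with
  | zero => simp
  | succ n ih =>
    rw [pow_succ', mul_assoc, ih, ← mul_assoc, ← mul_assoc, h]
    have h1 : x * a * d * a ^ n = x * (a * a ^ n) * d := by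
      rw [mul_assoc (x * a), (da.pow_right n).eq]
      group
    rw [h1, mul_assoc _ d (d ^ n), ← pow_succ' d n]

theorem pow_mul_two {x a d : Γ} (h : a * x = x * a * d) (dx : Commute d x) (da : Commute d a)
    (n : ℕ) : ∃ k : ℕ, 2 * k = n * (n - 1) ∧ (x * a) ^ n = x ^ n * a ^ n * d ^ k := by
  induction n with
  | zero => exact ⟨0, rfl, by simp⟩
  | succ n ih =>
    obtain ⟨k, hk, h1⟩ := ih
    refine ⟨k + n, ?_, ?_⟩
    · rcases n with _ | n
      · simp at hk ⊢
        exact hk
      · simp only [Nat.add_sub_cancel] at hk ⊢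
        nlinarith
    · rw [pow_succ, h1]
      have h2 : d ^ k * (x * a) = x * a * d ^ k :=
        ((dx.pow_left k).mul_right (da.pow_left k)).eq
      have h3 := pow_swap h da n
      calc x ^ n * a ^ n * d ^ k * (x * a) = x ^ n * (a ^ n * (d ^ k * (x * a))) := by group
        _ = x ^ n * (a ^ n * (x * a * d ^ k)) := by rw [h2]
        _ = x ^ n * ((a ^ n * x) * (a * d ^ k)) := by group
        _ = x ^ n * ((x * a ^ n * d ^ n) * (a * d ^ k)) := by rw [h3]
        _ = x ^ n * x * a ^ n * ((d ^ n * a) * d ^ k) := by group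
        _ = x ^ n * x * a ^ n * ((a * d ^ n) * d ^ k) := by rw [(da.pow_left n).eq]
        _ = (x ^ n * x) * (a ^ n * a) * (d ^ n * d ^ k) := by group
        _ = x ^ (n + 1) * a ^ (n + 1) * d ^ (k + n) := by
          rw [← pow_succ, ← pow_succ, ← pow_add, Nat.add_comm n k]

theorem mul_pow_one {q : ℕ} (hq : q.Prime) (h2 : q ≠ 2) {x a : Γ} (hx : x ^ q = 1)
    (ha : a ^ q = 1) (cx : Commute (cm x a) x) (ca : Commute (cm x a) a) : (x * a) ^ q = 1 := by
  have h : a * x = x * a * (cm x a)⁻¹ := by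
    have : x * a = a * x * cm x a := by unfold cm; group
    rw [this]
    group
  obtain ⟨k, hk, h1⟩ := pow_mul_two h cx.inv_left ca.inv_left q
  have h3 := pow_swap h ca.inv_left q
  have h4 : ((cm x a)⁻¹) ^ q = 1 := by
    rw [ha, one_mul, mul_one] at h3
    exact (mul_eq_left.1 h3.symm)
  have hodd := hq.odd_of_ne_two h2
  have h5 : q ∣ k := by
    have h6 : q ∣ 2 * k := ⟨q - 1, hk⟩
    rcases (Nat.Prime.dvd_mul hq).1 h6 with h7 | h7
    · exact absurd ((Nat.prime_dvd_prime_iff_eq hq Nat.prime_two).1 h7) h2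
    · exact h7
  obtain ⟨m, rfl⟩ := h5
  rw [h1, hx, ha, pow_mul, h4, one_pow, one_mul, one_mul]

end Pool.Agent.H59.SD
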