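import Pool.Agent.H59.SD.Env

/-!
# Facts on triples and quadruples of cross elements
-/

set_option autoImplicit false

namespace Pool.Agent.H59.SD

open H81.SC (Cr cj cm cj_mul cj_inv cj_cj cj_one cj_cj_inv cj_inv_cj cj_cm cm_eq cm_eq' cj_eq cm_inv cm_mul_left
  cm_mul_right cj_of cj_eq_iff cm_eq_one_iff cm_of comm_cj comm_cj_iff comm_cj_left comm_cm cm_comm
  comm_cj_self cm_self_of cm_inv_right cm_inv_left cj_inv_of cj_mem cm_mem tcore llcore)

variable {Γ : Type*} [Group Γ] {N : Subgroup Γ} {X : Set Γ}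

namespace Env

variable (E : Env N X)
include E

theorem T1 {x a b : Γ} (hx : x ∈ X) (ha : Cr N x a) (hb : Cr N x b) :
    Commute (cm x a) (cm x b) := (E.T hx ha hb).1

/-- swapping the first two entries of a triple commutator -/
theorem swap {x a b : Γ} (hx : x ∈ X) (ha : Cr N x a) (hb : Cr N x b) :
    cm (cm a x) b = (cm (cm x a) b)⁻¹ := by
  rw [← cm_inv x a]
  exact cm_inv_left (cm_self_of (E.T hx ha hb).2.2.2)

/-- triple commutators are central in the group generated by the triple -/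
theorem K {x a b : Γ} (hx : x ∈ X) (xa : Cr N x a) (xb : Cr N x b) (ab : Cr N a b) :
    Commute (cm (cm x a) b) x ∧ Commute (cm (cm x a) b) a ∧ Commute (cm (cm x a) b) b := by
  obtain ⟨_, h2, h3, _⟩ := E.T hx xa xb
  have ha : a ∈ X := E.crX hx xa
  refine ⟨h2, ?_, h3⟩
  have h := (E.T ha xa.symm ab).2.1
  rw [E.swap hx xa xb] at h
  simpa using h.inv_left

/-- `[x,[e,f]]` commutes with `[x,g]` -/
theorem T' {x e f g : Γ} (hx : x ∈ X) (xe : Cr N x e) (ef : Cr N e f) (xg : Cr N x g) :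
    Commute (cm x (cm e f)) (cm x g) := by
  have he : e ∈ X := E.crX hx xe
  have hf : f ∈ X := E.crX he ef
  have h1 : Commute (cm x e) (cm e f) := by
    have := (E.T1 he xe.symm ef).inv_left
    rwa [cm_inv] at this
  have h2 : cm x (cj e f) = cm x (cm e f) * cm x e := by
    rw [cj_eq, cm_mul_right, cj_of h1]
  have h3 : Commute (cm x (cj e f)) (cm x g) := E.T1 hx (xe.cj_right (E.sub _ hf)) xg
  have h4 : cm x (cm e f) = cm x (cj e f) * (cm x e)⁻¹ := by rw [h2]; group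
  rw [h4]
  exact h3.mul_left (E.T1 hx xe xg).inv_left

/-- Hall-Witt in class three -/
theorem jac {x a b : Γ} (hx : x ∈ X) (xa : Cr N x a) (xb : Cr N x b) (ab : Cr N a b) :
    cm x (cm a b) = cm (cm x a) b * (cm (cm x b) a)⁻¹ := by
  have ha : a ∈ X := E.crX hx xa
  have hb : b ∈ X := E.crX hx xb
  set z := cm x a with hz
  set n := cm x b with hn
  set W := cm a b with hW
  have zn : Commute z n := E.T1 hx xa xb
  have zW : Commute z W := by
    have := (E.T1 ha xa.symm ab).inv_left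
    rwa [cm_inv] at this
  have nW : Commute n W := by
    have := (E.T1 hb xb.symm ab.symm).inv_left.inv_right
    rwa [cm_inv, cm_inv] at this
  obtain ⟨t1x, t1a, t1b⟩ := E.K hx xa xb ab
  obtain ⟨t2x, t2b, t2a⟩ := E.K hx xb xa ab.symm
  rw [← hz] at t1x t1a t1b
  rw [← hn] at t2x t2a t2b
  have t2W : Commute (cm n a) W := (cm_comm t2a.symm t2b.symm).symm
  have e1 : cj x (a * b) = x * n * (z * cm z b) := by
    rw [← cj_cj, cj_eq x a, cj_mul, cj_eq x b, cj_eq z b]
  have e2 : cj x (b * a) = x * z * (n * cm n a) := by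
    rw [← cj_cj, cj_eq x b, cj_mul, cj_eq x a, cj_eq n a]
  have e3 : cj x (a * b) = cj (cj x (b * a)) W := by
    rw [cj_cj]; congr 1; rw [hW]; unfold cm; group
  rw [e1, e2, cj_mul, cj_mul, cj_mul, cj_eq x W, cj_of zW, cj_of nW, cj_of t2W] at e3
  -- x n z t1 = x β z n t2
  have βn : Commute z n := zn
  have e4 : n * z * cm z b = cm x W * (n * z) * cm n a := by
    have : x * (n * z * cm z b) = x * (cm x W * (n * z) * cm n a) := by
      calc x * (n * z * cm z b) = x * n * (z * cm z b) := by group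
        _ = x * cm x W * z * (n * cm n a) := e3
        _ = x * (cm x W * (z * n) * cm n a) := by group
        _ = _ := by rw [zn.eq]
    exact mul_left_cancel this
  -- `t1` and `t2` commute with `n z`
  have t1z : Commute (cm z b) z := cm_self_of (E.T hx xa xb).2.2.2
  have t1n : Commute (cm z b) n := (cm_comm t1x.symm t1b.symm).symm
  have t2z : Commute (cm n a) z := (cm_comm t2x.symm t2a.symm).symm
  have t2n : Commute (cm n a) n := cm_self_of (E.T hx xb xa).2.2.2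
  have f1 : n * z * cm z b = cm z b * (n * z) := ((t1n.mul_right t1z).eq).symm
  have f2 : (n * z) * cm n a = cm n a * (n * z) := ((t2n.mul_right t2z).eq).symm
  have e5 : cm z b * (n * z) = cm x W * cm n a * (n * z) := by
    rw [← f1, e4, mul_assoc, f2, mul_assoc]
  have e6 := mul_right_cancel e5
  rw [e6]; group

/-- `F`: the statement that `[y,e]` commutes with `[y,f,g]` -/
theorem S1 {y e f g : Γ} (hy : y ∈ X) (ye : Cr N y e) (yf : Cr N y f) (yg : Cr N y g)
    (h : Commute (cm y e) (cm (cm y f) g)) : Commute (cm y f) (cm (cm y e) g) := by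
  have h1 : Commute (cm y e) (cj (cm y f) g) := by
    rw [cj_eq]
    exact (E.T1 hy ye yf).mul_right h
  have h2 : Commute (cj (cm y e) g⁻¹) (cm y f) := by
    have := comm_cj h1 g⁻¹
    rwa [cj_cj_inv] at this
  rw [cj_inv_of (E.T hy ye yg).2.2.1] at h2
  have h3 := (E.T1 hy ye yf).inv_left.mul_left h2
  have h4 : (cm y e)⁻¹ * (cm y e * (cm (cm y e) g)⁻¹) = (cm (cm y e) g)⁻¹ := by group
  rw [h4] at h3
  simpa using h3.symm.inv_right

theorem S2 {y e f g : Γ} (hy : y ∈ X) (ye : Cr N y e) (yf : Cr N y f) (yg : Cr N y g)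
    (fg : Cr N f g) (h : Commute (cm y e) (cm (cm y f) g)) :
    Commute (cm y e) (cm (cm y g) f) := by
  have h1 := E.jac hy yf yg fg
  have h2 : Commute (cm y e) (cm y (cm f g)) := (E.T' hy yf fg ye).symm
  have h3 : cm (cm y g) f = (cm y (cm f g))⁻¹ * cm (cm y f) g := by
    rw [h1]; group
  rw [h3]
  exact h2.inv_right.mul_right h

/-- all six permutations -/
theorem six {y e f g : Γ} (hy : y ∈ X) (ye : Cr N y e) (yf : Cr N y f) (yg : Cr N y g)
    (ef : Cr N e f) (eg : Cr N e g) (fg : Cr N f g) (h : Commute (cm y e) (cm (cm y f) g)) :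
    Commute (cm y e) (cm (cm y f) g) ∧ Commute (cm y e) (cm (cm y g) f) ∧
    Commute (cm y f) (cm (cm y e) g) ∧ Commute (cm y f) (cm (cm y g) e) ∧
    Commute (cm y g) (cm (cm y e) f) ∧ Commute (cm y g) (cm (cm y f) e) := by
  have h2 := E.S2 hy ye yf yg fg h
  have h3 := E.S1 hy ye yf yg h
  have h4 := E.S2 hy yf ye yg eg h3
  have h5 := E.S1 hy ye yg yf h2
  have h6 := E.S2 hy yg ye yf ef h5
  exact ⟨h, h2, h3, h4, h5, h6⟩

/-- the class-two law applied twice -/
theorem diff {y e f : Γ} (hy : y ∈ X) (ye : Cr N y e) (yf : Cr N y f) :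
    Commute y (cj y (e * f⁻¹)) := by
  have h1 : Commute (cj y e) (cj y f) := by
    rw [cj_eq y e, cj_eq y f]
    exact ((Commute.refl y).mul_right (E.pair hy yf).1.symm).mul_left
      ((E.pair hy ye).1.mul_right (E.T1 hy ye yf))
  have h2 := comm_cj h1 f⁻¹
  rw [cj_cj_inv, cj_cj] at h2
  exact h2.symm

end Env

namespace Env

variable (E : Env N X)
include E

theorem LL {x a u w : Γ} (hx : x ∈ X) (xa : Cr N x a) (hu : u ∉ N) (hw : w ∈ N)
    (hwc : Commute w (cj a u)) (ab : Cr N a (cj x u)) {δ : Γ}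
    (hδ : δ = cj x u * (cj (cj x u) w)⁻¹) :
    Commute x (cj x δ) ∧ Commute a (cj a δ) ∧ cm x (cj a δ) = cm (cj x δ) a := by
  have ha : a ∈ X := E.crX hx xa
  have hy : x * a ∈ X := E.mulX x hx a ha (E.pair hx xa).1 (E.pair hx xa).2
  have hbN : cj x u ∈ N := E.cjm hx u
  have hδN : δ ∈ N := by
    rw [hδ]; exact N.mul_mem hbN (N.inv_mem (cj_mem E.normal hbN w))
  have huw : u * w ∉ N := fun h1 => hu ((N.mul_mem_cancel_right hw).1 h1)
  have c1 : Cr N (x * a) (cj (x * a) u) := ⟨u, hu, Or.inl rfl⟩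
  have c2 : Cr N (x * a) (cj (x * a) (u * w)) := ⟨u * w, huw, Or.inl rfl⟩
  have hc : cj (cj a u) w = cj a u := cj_of hwc.symm
  have h1 := E.diff hy c1 c2
  have h2 : cj (x * a) u * (cj (x * a) (u * w))⁻¹ = δ := by
    rw [hδ, ← cj_cj, cj_mul, cj_mul, hc]; group
  rw [h2, cj_mul] at h1
  have xb : Cr N x (cj x u) := ⟨u, hu, Or.inl rfl⟩
  have h3 : Commute x (cj x δ) := by
    rw [hδ]; exact E.diff hx xb (xb.cj_right hw)
  have h4 : Commute a (cj a δ) := by
    rw [hδ]; exact E.diff ha ab (ab.cj_right hw)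
  exact ⟨h3, h4, llcore h3 h4 h1 (E.pair hx (xa.cj_right hδN)).2
    (E.pair ha (xa.symm.cj_right hδN)).1⟩

/-- `[x,a]` commutes with `[x,c,b]` for `b = x^u`, `c = a^u` -/
theorem F1 {x a u : Γ} (hx : x ∈ X) (xa : Cr N x a) (hu : u ∉ N) (ab : Cr N a (cj x u))
    (xc : Cr N x (cj a u)) :
    Commute (cm x a) (cm (cm x (cj a u)) (cj x u)) := by
  have ha : a ∈ X := E.crX hx xa
  have hcN : cj a u ∈ N := E.cjm ha u
  have xb : Cr N x (cj x u) := ⟨u, hu, Or.inl rfl⟩
  have bc : Cr N (cj x u) (cj a u) := xa.conj E.normal u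
  set b := cj x u with hb
  set c := cj a u with hc
  obtain ⟨kx, kc, kb⟩ := E.K hx xc xb bc.symm
  set q := cm b (cm x c) with hq
  have hqi : cm (cm x c) b = q⁻¹ := by rw [hq, cm_inv]
  rw [hqi] at kx kc kb ⊢
  have hwc : Commute (cm x c) (cj a u) := (E.pair hx xc).2
  have hδ : q⁻¹ = cj x u * (cj (cj x u) (cm x c))⁻¹ := by
    rw [← hb, cj_eq b (cm x c), ← hq, mul_inv_rev, ← mul_assoc, ← kb.eq, mul_assoc,
      mul_inv_cancel, mul_one]
  obtain ⟨-, h2, h3⟩ := E.LL hx xa hu (cm_mem (E.sub _ hx) hcN) hwc ab hδ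
  rw [cj_of kx.symm, cm_eq, cm_eq] at h3
  have h4 := mul_left_cancel h3
  -- `cj x A = cj x a`, `A = cj a q⁻¹`
  have h5 : Commute x (cj a q⁻¹ * a⁻¹) := by
    apply cj_eq_iff.1
    rw [← cj_cj, h4, cj_cj_inv]
  have h6 : cj a q⁻¹ * a⁻¹ = q * cj q⁻¹ a⁻¹ := by unfold cj; group
  rw [h6] at h5
  have h7 : Commute x (cj q⁻¹ a⁻¹) := by
    have := kx.symm.mul_right h5
    have e : q⁻¹ * (q * cj q⁻¹ a⁻¹) = cj q⁻¹ a⁻¹ := by group
    rwa [e] at this
  have h8 : Commute (cj x a) q⁻¹ := comm_cj_left.2 h7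
  rw [cm_eq]
  exact kx.symm.inv_left.mul_left h8

/-- `[x,a]` commutes with `[a,c,b]` for `b = x^u`, `c = a^u` -/
theorem F2 {x a u : Γ} (hx : x ∈ X) (xa : Cr N x a) (hu : u ∉ N) (ab : Cr N a (cj x u)) :
    Commute (cm a x) (cm (cm a (cj a u)) (cj x u)) := by
  have ha : a ∈ X := E.crX hx xa
  have hcN : cj a u ∈ N := E.cjm ha u
  have ac : Cr N a (cj a u) := ⟨u, hu, Or.inl rfl⟩
  have bc : Cr N (cj x u) (cj a u) := xa.conj E.normal u
  set b := cj x u with hb
  set c := cj a u with hc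
  obtain ⟨ka, kc, kb⟩ := E.K ha ac ab bc.symm
  set q := cm b (cm a c) with hq
  have hqi : cm (cm a c) b = q⁻¹ := by rw [hq, cm_inv]
  rw [hqi] at ka kc kb ⊢
  have hwc : Commute (cm a c) (cj a u) := (E.pair ha ac).2
  have hδ : q⁻¹ = cj x u * (cj (cj x u) (cm a c))⁻¹ := by
    rw [← hb, cj_eq b (cm a c), ← hq, mul_inv_rev, ← mul_assoc, ← kb.eq, mul_assoc,
      mul_inv_cancel, mul_one]
  obtain ⟨h1, -, h3⟩ := E.LL hx xa hu (cm_mem (E.sub _ ha) hcN) hwc ab hδ
  rw [cj_of ka.symm, cm_eq', cm_eq'] at h3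
  have h4 := mul_right_cancel h3
  have h4' : cj a x = cj a (cj x q⁻¹) := inv_injective h4
  have h5 : Commute a (cj x q⁻¹ * x⁻¹) := by
    apply cj_eq_iff.1
    rw [← cj_cj, ← h4', cj_cj_inv]
  have h6 : cj x q⁻¹ * x⁻¹ = q * cj q⁻¹ x⁻¹ := by unfold cj; group
  rw [h6] at h5
  have h7 : Commute a (cj q⁻¹ x⁻¹) := by
    have := ka.symm.mul_right h5
    have e : q⁻¹ * (q * cj q⁻¹ x⁻¹) = cj q⁻¹ x⁻¹ := by group
    rwa [e] at this
  have h8 : Commute (cj a x) q⁻¹ := comm_cj_left.2 h7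
  rw [cm_eq]
  exact ka.symm.inv_left.mul_left h8

end Env

end Pool.Agent.H59.SD
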