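import Pool.Agent.H59.SD.Tri
import Pool.Agent.H81.SC.Fin

/-!
# Normal closures of elements of `X` have class three
-/

set_option autoImplicit false

namespace Pool.Agent.H59.SD

open H81.SC (Cr cj cm cj_mul cj_inv cj_cj cj_one cj_cj_inv cj_inv_cj cj_cm cm_eq cm_eq' cj_eq cm_inv cm_mul_left
  cm_mul_right cj_of cj_eq_iff cm_eq_one_iff cm_of comm_cj comm_cj_iff comm_cj_left comm_cm cm_comm
  comm_cj_self cm_self_of cm_inv_right cm_inv_left cj_inv_of cj_mem cm_mem not_inv_mem InC InK)

variable {Γ : Type*} [Group Γ] {N : Subgroup Γ} {X : Set Γ}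

namespace Env

variable (E : Env N X)
include E

/-- The commutators `[x, x^v]` are central modulo the centraliser of the normal closure. -/
theorem zK (c3 : ∀ x ∈ X, ∀ u v, u ∉ N → v ∉ N → v⁻¹ * u ∉ N → Commute (cm x (cj x v)) (cj x u))
    {q : ℕ} (hpow : ∀ u, u ∉ N → ∀ k, 0 < k → k < q + 2 → u ^ k ∉ N)
    (norm : ∀ x ∈ N, ∀ u, u ∉ N → ((List.range (q + 2)).map (fun k => cj x (u ^ k))).prod = 1)
    {x v : Γ} (hx : x ∈ X) (hv : v ∉ N) : InK N x (cm x (cj x v)) := by
  have ha : cj x v ∈ N := E.cjm hx v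
  have hz : cm x (cj x v) ∈ N := cm_mem (E.sub _ hx) ha
  -- `z z^w` centralises for `v w ∈ N`
  have key : ∀ w, w ∉ N → v * w ∈ N →
      InC N x (cm x (cj x v) * cj (cm x (cj x v)) w) := by
    intro w hw hvw
    have h1 := norm _ hz w hw
    rw [List.range_succ_eq_map, List.map_cons, List.prod_cons, List.map_map,
      List.range_succ_eq_map, List.map_cons, List.prod_cons, List.map_map, ← mul_assoc] at h1
    have h2 : InC N x (((List.range q).map
        (((fun k => cj (cm x (cj x v)) (w ^ k)) ∘ Nat.succ) ∘ Nat.succ)).prod) := by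
      have hS : ∀ l : List ℕ, (∀ k ∈ l, k < q) → InC N x ((l.map
        (((fun k => cj (cm x (cj x v)) (w ^ k)) ∘ Nat.succ) ∘ Nat.succ)).prod) := by
        intro l
        induction l with
        | nil => intro _ h _; simp
        | cons k l ih =>
          intro hl
          rw [List.map_cons, List.prod_cons]
          refine InC.mul ?_ (ih fun j hj => hl j (List.mem_cons_of_mem _ hj))
          have hk : k < q := hl k List.mem_cons_self
          intro h hh
          simp only [Function.comp_apply]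
          -- `y = x^(w^(k+2))`
          have hw2 : w ^ (k + 2) ∉ N := hpow w hw (k + 2) (by omega) (by omega)
          have hw1 : w ^ (k + 1) ∉ N := hpow w hw (k + 1) (by omega) (by omega)
          have hvw2 : v * w ^ (k + 2) ∉ N := by
            intro h3
            apply hw1
            have h4 := N.mul_mem (N.inv_mem hvw) h3
            have e : (v * w)⁻¹ * (v * w ^ (k + 2)) = w ^ (k + 1) := by
              rw [pow_succ' w (k + 1)]; group
            rwa [e] at h4
          show Commute (cj (cm x (cj x v)) (w ^ (k + 2))) (cj x h)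
          rw [cj_cm, cj_cj]
          have hbase : cj x (w ^ (k + 2)) ∈ X := E.cjX x hx _
          have hu1 : (w ^ (k + 2))⁻¹ * h ∉ N := fun h3 =>
            not_inv_mem hw2 ((N.mul_mem_cancel_right hh).1 h3)
          have hv1 : (w ^ (k + 2))⁻¹ * (v * w ^ (k + 2)) ∉ N := by
            intro h3
            apply hv
            have h4 := cj_mem E.normal (u := (w ^ (k + 2))⁻¹) h3
            have e : cj ((w ^ (k + 2))⁻¹ * (v * w ^ (k + 2))) (w ^ (k + 2))⁻¹ = v := by
              unfold cj; simp [mul_assoc]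
            rwa [e] at h4
          have huv1 : ((w ^ (k + 2))⁻¹ * (v * w ^ (k + 2)))⁻¹ * ((w ^ (k + 2))⁻¹ * h) ∉ N := by
            intro h3
            have e : ((w ^ (k + 2))⁻¹ * (v * w ^ (k + 2)))⁻¹ * ((w ^ (k + 2))⁻¹ * h) =
                (v * w ^ (k + 2))⁻¹ * h := by simp [mul_assoc]
            rw [e] at h3
            exact not_inv_mem hvw2 ((N.mul_mem_cancel_right hh).1 h3)
          have := c3 _ hbase _ _ hu1 hv1 huv1
          rw [cj_cj, cj_cj] at this
          have e1 : w ^ (k + 2) * ((w ^ (k + 2))⁻¹ * (v * w ^ (k + 2))) = v * w ^ (k + 2) := by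
            group
          have e2 : w ^ (k + 2) * ((w ^ (k + 2))⁻¹ * h) = h := by group
          rwa [e1, e2] at this
      exact hS _ fun k hk => List.mem_range.1 hk
    have h3 := eq_inv_of_mul_eq_one_left h1
    have e0 : cj (cm x (cj x v)) (w ^ 0) = cm x (cj x v) := by rw [pow_zero, cj_one]
    have e1 : ((fun k => cj (cm x (cj x v)) (w ^ k)) ∘ Nat.succ) 0 =
        cj (cm x (cj x v)) w := by simp
    rw [e0, e1] at h3
    rw [h3]
    exact h2.inv
  have hvi : v⁻¹ ∉ N := not_inv_mem hv
  have k1 := key v⁻¹ hvi (by rw [mul_inv_cancel]; exact N.one_mem)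
  -- `z^w` is central modulo `C`
  have k2 : InK N x (cj (cm x (cj x v)) v⁻¹) := by
    refine ⟨cj_mem E.normal hz _, fun g hg => ?_⟩
    have hvg : v⁻¹ * g ∉ N := fun h => hvi ((N.mul_mem_cancel_right hg).1 h)
    have k3 := key (v⁻¹ * g) hvg (by rw [mul_inv_cancel_left]; exact hg)
    have := k1.inv.mul k3
    rw [← cj_cj] at this
    have e : (cm x (cj x v) * cj (cm x (cj x v)) v⁻¹)⁻¹ *
        (cm x (cj x v) * cj (cj (cm x (cj x v)) v⁻¹) g) =
        cm (cj (cm x (cj x v)) v⁻¹) g := by
      rw [cm_eq (cj (cm x (cj x v)) v⁻¹) g]; group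
    rwa [e] at this
  have k4 : InK N x (cm x (cj x v) * cj (cm x (cj x v)) v⁻¹) :=
    InK.of_InC (N.mul_mem hz (cj_mem E.normal hz _)) k1
  have := k4.mul k2.inv
  rwa [mul_inv_cancel_right] at this

/-- the conclusion in `Γ` -/
theorem fin (c3 : ∀ x ∈ X, ∀ u v, u ∉ N → v ∉ N → v⁻¹ * u ∉ N → Commute (cm x (cj x v)) (cj x u))
    {q : ℕ} (hpow : ∀ u, u ∉ N → ∀ k, 0 < k → k < q + 2 → u ^ k ∉ N)
    (norm : ∀ x ∈ N, ∀ u, u ∉ N → ((List.range (q + 2)).map (fun k => cj x (u ^ k))).prod = 1)
    (hne : ∃ u, u ∉ N) {x g y h : Γ} (hx : x ∈ X) (hg : g ∈ N) (hy : y ∈ N) (hh : h ∈ N) :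
    Commute (cm (cm x (cj x g)) y) (cj x h) := by
  obtain ⟨w, hw⟩ := hne
  -- the set of `y` with `[x,y]` central modulo `C`
  have sm : ∀ a b, b ∈ N → InK N x (cm x a) → InK N x (cm x b) → InK N x (cm x (a * b)) := by
    intro a b hb h1 h2
    rw [cm_mul_right]
    exact h2.mul (h1.cj E.normal hb)
  have si : ∀ a, a ∈ N → InK N x (cm x a) → InK N x (cm x a⁻¹) := by
    intro a ha h1
    have e : cm x a⁻¹ = cj (cm x a)⁻¹ a⁻¹ := by unfold cm cj; group
    rw [e]
    exact h1.inv.cj E.normal (N.inv_mem ha)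
  have h1 := norm (cj x g) (E.cjm hx g) w hw
  rw [List.range_succ_eq_map, List.map_cons, List.prod_cons, List.map_map, pow_zero,
    cj_one] at h1
  have h2 : ((List.range (q + 1)).map ((fun k => cj (cj x g) (w ^ k)) ∘ Nat.succ)).prod ∈ N ∧
      InK N x (cm x (((List.range (q + 1)).map
        ((fun k => cj (cj x g) (w ^ k)) ∘ Nat.succ)).prod)) := by
    have hS : ∀ l : List ℕ, (∀ k ∈ l, k < q + 1) →
        ((l.map ((fun k => cj (cj x g) (w ^ k)) ∘ Nat.succ)).prod) ∈ N ∧
        InK N x (cm x ((l.map ((fun k => cj (cj x g) (w ^ k)) ∘ Nat.succ)).prod)) := by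
      intro l
      induction l with
      | nil =>
        intro _
        refine ⟨by simp, ?_⟩
        have : cm x (List.map ((fun k => cj (cj x g) (w ^ k)) ∘ Nat.succ) []).prod = 1 := by
          simp [cm]
        rw [this]
        refine InK.of_InC N.one_mem (fun h _ => Commute.one_left _)
      | cons k l ih =>
        intro hl
        obtain ⟨i1, i2⟩ := ih fun j hj => hl j (List.mem_cons_of_mem _ hj)
        have hk : k < q + 1 := hl k List.mem_cons_self
        rw [List.map_cons, List.prod_cons]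
        have hw1 : g * w ^ (k + 1) ∉ N := fun h3 =>
          hpow w hw (k + 1) (by omega) (by omega) ((N.mul_mem_cancel_left hg).1 h3)
        have e : ((fun k => cj (cj x g) (w ^ k)) ∘ Nat.succ) k = cj x (g * w ^ (k + 1)) := by
          simp [cj_cj]
        rw [e]
        refine ⟨N.mul_mem (E.cjm hx _) i1, ?_⟩
        exact sm _ _ i1 (E.zK c3 hpow norm hx hw1) i2
    exact hS _ fun k hk => List.mem_range.1 hk
  have h3 : InK N x (cm x (cj x g)) := by
    rw [eq_inv_of_mul_eq_one_left h1]
    exact si _ h2.1 h2.2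
  exact h3.2 y hy h hh

end Env

end Pool.Agent.H59.SD
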