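import Pool.Agent.H59.SD.Quad

/-!
# Triple commutators commute with all their conjugates
-/

set_option autoImplicit false

namespace Pool.Agent.H59.SD

open H81.SC (Cr cj cm cj_mul cj_inv cj_cj cj_one cj_cj_inv cj_inv_cj cj_cm cm_eq cm_eq' cj_eq cm_inv cm_mul_left
  cm_mul_right cj_of cj_eq_iff cm_eq_one_iff cm_of comm_cj comm_cj_iff comm_cj_left comm_cm cm_comm
  comm_cj_self cm_self_of cm_inv_right cm_inv_left cj_inv_of cj_mem cm_mem not_inv_mem)

variable {Γ : Type*} [Group Γ] {N : Subgroup Γ} {X : Set Γ}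

theorem Ds.mul_right {g h y : Γ} (hy : y ∈ N) (H : Ds N g h) : Ds N g (h * y) := by
  intro h1
  apply H
  have e : g⁻¹ * (h * y) = g⁻¹ * h * y := by group
  rw [e] at h1
  exact (N.mul_mem_cancel_right hy).1 h1

theorem Ds.shift {g h : Γ} (hN : N.Normal) (t : Γ) (H : Ds N g h) : Ds N (g * t) (h * t) := by
  intro h1
  apply H
  have h2 := cj_mem hN h1 t⁻¹
  have e : cj ((g * t)⁻¹ * (h * t)) t⁻¹ = g⁻¹ * h := by unfold cj; group
  rwa [e] at h2

/-- some shifted coset is different from the three given ones -/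
theorem exists_shift (hN : N.Normal) (two : ∀ v, v ∉ N → v * v ∉ N)
    (three : ∀ v, v ∉ N → v * v * v ∉ N) {a b c t : Γ} (ht : t ∉ N) :
    (Ds N a (a * t) ∧ Ds N b (a * t) ∧ Ds N c (a * t)) ∨
    (Ds N a (b * t) ∧ Ds N b (b * t) ∧ Ds N c (b * t)) ∨
    (Ds N a (c * t) ∧ Ds N b (c * t) ∧ Ds N c (c * t)) := by
  have key : ∀ y z : Γ, ¬ Ds N y z → QuotientGroup.mk' N y = QuotientGroup.mk' N z := by
    intro y z h
    unfold Ds at h
    rw [not_not] at h
    exact QuotientGroup.eq.2 h
  have t1 : QuotientGroup.mk' N t ≠ 1 := fun h => ht ((QuotientGroup.eq_one_iff _).1 h)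
  have t2 : QuotientGroup.mk' N t * QuotientGroup.mk' N t ≠ 1 := fun h => two t ht (by
    rw [← map_mul] at h
    exact (QuotientGroup.eq_one_iff _).1 h)
  have t3 : QuotientGroup.mk' N t * QuotientGroup.mk' N t * QuotientGroup.mk' N t ≠ 1 :=
    fun h => three t ht (by
      rw [← map_mul, ← map_mul] at h
      exact (QuotientGroup.eq_one_iff _).1 h)
  have aa : Ds N a (a * t) := by
    intro h; apply ht; rwa [inv_mul_cancel_left] at h
  have bb : Ds N b (b * t) := by
    intro h; apply ht; rwa [inv_mul_cancel_left] at h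
  have cc : Ds N c (c * t) := by
    intro h; apply ht; rwa [inv_mul_cancel_left] at h
  by_contra hcon
  rw [not_or, not_or] at hcon
  obtain ⟨n1, n2, n3⟩ := hcon
  have ha : QuotientGroup.mk' N b = QuotientGroup.mk' N (a * t) ∨
      QuotientGroup.mk' N c = QuotientGroup.mk' N (a * t) := by
    by_contra h
    rw [not_or] at h
    exact n1 ⟨aa, by_contra fun h1 => h.1 (key _ _ h1), by_contra fun h1 => h.2 (key _ _ h1)⟩
  have hb : QuotientGroup.mk' N a = QuotientGroup.mk' N (b * t) ∨
      QuotientGroup.mk' N c = QuotientGroup.mk' N (b * t) := by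
    by_contra h
    rw [not_or] at h
    exact n2 ⟨by_contra fun h1 => h.1 (key _ _ h1), bb, by_contra fun h1 => h.2 (key _ _ h1)⟩
  have hc : QuotientGroup.mk' N a = QuotientGroup.mk' N (c * t) ∨
      QuotientGroup.mk' N b = QuotientGroup.mk' N (c * t) := by
    by_contra h
    rw [not_or] at h
    exact n3 ⟨by_contra fun h1 => h.1 (key _ _ h1), by_contra fun h1 => h.2 (key _ _ h1), cc⟩
  rw [map_mul] at ha hb hc
  generalize QuotientGroup.mk' N a = α at *
  generalize QuotientGroup.mk' N b = β at *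
  generalize QuotientGroup.mk' N c = γ at *
  generalize QuotientGroup.mk' N t = τ at *
  rcases ha with ha | ha
  · rcases hb with hb | hb
    · apply t2
      rw [ha] at hb
      have : α = α * (τ * τ) := by rw [← mul_assoc]; exact hb
      exact (mul_eq_left.1 this.symm)
    · rcases hc with hc | hc
      · apply t3
        rw [hb, ha] at hc
        have : α = α * (τ * τ * τ) := by rw [← mul_assoc, ← mul_assoc]; exact hc
        exact (mul_eq_left.1 this.symm)
      · apply t2
        rw [hb] at hc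
        have : β = β * (τ * τ) := by rw [← mul_assoc]; exact hc
        exact (mul_eq_left.1 this.symm)
  · rcases hc with hc | hc
    · apply t2
      rw [ha] at hc
      have : α = α * (τ * τ) := by rw [← mul_assoc]; exact hc
      exact (mul_eq_left.1 this.symm)
    · rcases hb with hb | hb
      · apply t3
        rw [hc, ha] at hb
        have : α = α * (τ * τ * τ) := by rw [← mul_assoc, ← mul_assoc]; exact hb
        exact (mul_eq_left.1 this.symm)
      · apply t2
        rw [hc] at hb
        have : γ = γ * (τ * τ) := by rw [← mul_assoc]; exact hb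
        exact (mul_eq_left.1 this.symm)

namespace Env

variable (E : Env N X)
include E

theorem zc (three : ∀ v, v ∉ N → v * v * v ∉ N) {x g h k l : Γ} (hx : x ∈ X) (gh : Ds N g h)
    (gk : Ds N g k) (hk : Ds N h k) (gl : Ds N g l) (hl : Ds N h l) (kl : Ds N k l) {y : Γ}
    (hy : y ∈ N) :
    Commute (cm (cm (cj x g) (cj x h)) (cj x k)) (cm (cj x l) y) := by
  rw [cm_eq (cj x l) y, cj_cj x l y]
  exact (E.quad three hx gh gk gl hk hl kl).inv_right.mul_right
    (E.quad three hx gh gk (gl.mul_right hy) hk (hl.mul_right hy) (kl.mul_right hy))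

theorem zd (three : ∀ v, v ∉ N → v * v * v ∉ N) {x g h k l : Γ} (hx : x ∈ X) (gh : Ds N g h)
    (gk : Ds N g k) (hk : Ds N h k) (gl : Ds N g l) (hl : Ds N h l) (kl : Ds N k l) {y y' : Γ}
    (hy : y ∈ N) (hy' : y' ∈ N) :
    Commute (cm (cm (cj x g) (cj x h)) (cj x k)) (cm (cm (cj x l) y) y') := by
  rw [cm_eq (cm (cj x l) y), cj_cm, cj_cj]
  exact (E.zc three hx gh gk hk gl hl kl hy).inv_right.mul_right
    (E.zc three hx gh gk hk (gl.mul_right hy') (hl.mul_right hy') (kl.mul_right hy')
      (cj_mem E.normal hy y'))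

/-- the triple commutators commute with their conjugates by elements outside `N` -/
theorem wt (two : ∀ v, v ∉ N → v * v ∉ N) (three : ∀ v, v ∉ N → v * v * v ∉ N) {x g h k : Γ}
    (hx : x ∈ X) (gh : Ds N g h) (gk : Ds N g k) (hk : Ds N h k) {t : Γ} (ht : t ∉ N) :
    Commute (cm (cm (cj x g) (cj x h)) (cj x k))
      (cj (cm (cm (cj x g) (cj x h)) (cj x k)) t) := by
  rw [cj_cm (cm (cj x g) (cj x h)), cj_cm (cj x g), cj_cj, cj_cj, cj_cj]
  rcases exists_shift E.normal two three (a := g) (b := h) (c := k) ht with H | H | H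
  · exact E.zd three hx gh gk hk H.1 H.2.1 H.2.2 (E.cjm hx _) (E.cjm hx _)
  · rw [← E.cyc three hx (gh.shift E.normal t) (gk.shift E.normal t) (hk.shift E.normal t)]
    exact E.zd three hx gh gk hk H.1 H.2.1 H.2.2 (E.cjm hx _) (E.cjm hx _)
  · rw [← E.cyc three hx (gh.shift E.normal t) (gk.shift E.normal t) (hk.shift E.normal t),
      ← E.cyc three hx (hk.shift E.normal t) (gh.symm.shift E.normal t)
        (gk.symm.shift E.normal t)]
    exact E.zd three hx gh gk hk H.1 H.2.1 H.2.2 (E.cjm hx _) (E.cjm hx _)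

/-- the triple commutators commute with all their conjugates -/
theorem wall (two : ∀ v, v ∉ N → v * v ∉ N) (three : ∀ v, v ∉ N → v * v * v ∉ N)
    {q : ℕ} (hpow : ∀ u, u ∉ N → ∀ k, 0 < k → k < q + 2 → u ^ k ∉ N)
    (norm : ∀ x ∈ N, ∀ u, u ∉ N → ((List.range (q + 2)).map (fun k => cj x (u ^ k))).prod = 1)
    (hne : ∃ u, u ∉ N) {x g h k : Γ}
    (hx : x ∈ X) (gh : Ds N g h) (gk : Ds N g k) (hk : Ds N h k) (t : Γ) :
    Commute (cm (cm (cj x g) (cj x h)) (cj x k))
      (cj (cm (cm (cj x g) (cj x h)) (cj x k)) t) := by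
  by_cases ht : t ∈ N
  · obtain ⟨u, hu⟩ := hne
    have hw : cm (cm (cj x g) (cj x h)) (cj x k) ∈ N :=
      cm_mem (cm_mem (E.cjm hx g) (E.cjm hx h)) (E.cjm hx k)
    have key : ∀ t, t ∉ N → Commute (cm (cm (cj x g) (cj x h)) (cj x k))
        (cj (cm (cm (cj x g) (cj x h)) (cj x k)) t) := fun t ht =>
      E.wt two three hx gh gk hk ht
    obtain ⟨w, hwd⟩ : ∃ w, w = cm (cm (cj x g) (cj x h)) (cj x k) := ⟨_, rfl⟩
    rw [← hwd] at hw key ⊢
    have h1 := norm (cj w t) (cj_mem E.normal hw t) u hu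
    rw [List.range_succ_eq_map, List.map_cons, List.prod_cons, List.map_map, pow_zero,
      cj_one] at h1
    rw [eq_inv_of_mul_eq_one_left h1]
    apply Commute.inv_right
    apply Commute.list_prod_right
    intro y hy
    obtain ⟨j, hj, rfl⟩ := List.mem_map.1 hy
    rw [List.mem_range] at hj
    simp only [Function.comp_apply]
    rw [cj_cj]
    exact key _ fun h3 => hpow u hu (j + 1) (by omega) (by omega)
      ((N.mul_mem_cancel_left ht).1 h3)
  · exact E.wt two three hx gh gk hk ht

end Env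

end Pool.Agent.H59.SD
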