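import Pool.Agent.H59.SD.Cls
import Pool.Agent.H59.SD.Zet
import Pool.Agent.H59.PO.Defs

/-! The environment in the semidirect product, law on the elements of order `q`. -/

set_option autoImplicit false

open scoped commutatorElement

namespace Pool.Agent.H59.SD

open H81.SC

variable {G : Type*} [Group G]

/-- the elements of `G` of order `1` or `q`, in the semidirect product -/
def Xq (φ : MulAut G) (q : ℕ) : Set (Ga φ) := {y | y ∈ Nn φ ∧ y ^ q = 1}

theorem envX {p : ℕ} (hp : p.Prime) (hG : ∀ g : G, Nat.Coprime (orderOf g) p)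
    (ho : ∀ g : G, Nat.Coprime (orderOf g) 2)
    {φ : MulAut G} (hφ : φ ^ p = 1)
    (hs : ∀ g : G, ((List.range p).map (fun i => (φ ^ i) g)).prod = 1)
    (hn : ∀ g : G, Group.IsNilpotent
      (Subgroup.closure (Set.range (fun i : Fin p => (φ ^ (i : ℕ)) g))))
    {q : ℕ} (hq : q.Prime) (h2 : q ≠ 2)
    (hc : ∀ (g : G) (i : ℕ), g ^ q = 1 → Commute (cm g ((φ ^ i) g)) g) :
    Env (Nn φ) (Xq φ q) where
  normal := Nn_normal φ
  sub := fun x hx => hx.1
  cjX := by
    rintro x ⟨hx, hxq⟩ u
    refine ⟨cj_mem (Nn_normal φ) hx u, ?_⟩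
    have h3 := conj_pow (i := q) (a := u⁻¹) (b := x)
    rw [inv_inv] at h3
    unfold cj
    rw [h3, hxq]
    group
  invX := by
    rintro x ⟨hx, hxq⟩
    exact ⟨(Nn φ).inv_mem hx, by rw [inv_pow, hxq, inv_one]⟩
  mulX := by
    rintro x ⟨hx, hxq⟩ a ⟨ha, haq⟩ cx ca
    exact ⟨(Nn φ).mul_mem hx ha, mul_pow_one hq h2 hxq haq cx ca⟩
  law := by
    rintro _ ⟨⟨x, rfl⟩, hxq⟩ u hu
    obtain ⟨h, hh⟩ := conjform hp hG hφ hs hn hu
    obtain ⟨j, hj⟩ := natpow hp hφ u.right⁻¹
    have hxq1 : x ^ q = 1 := by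
      apply SemidirectProduct.inl_injective (φ := (Subgroup.zpowers φ).subtype)
      rw [map_pow, map_one]; exact hxq
    set y := cj x h with hy
    have hyq : y ^ q = 1 := by
      have h3 := conj_pow (i := q) (a := h⁻¹) (b := x)
      rw [inv_inv] at h3
      rw [hy]
      unfold cj
      rw [h3, hxq1]
      group
    have e1 : (SemidirectProduct.inl x : Ga φ) =
        cj (SemidirectProduct.inl y) (SemidirectProduct.inl h)⁻¹ := by
      rw [hy, map_cj, cj_cj_inv]
    have e2 : cj (SemidirectProduct.inl y : Ga φ) (SemidirectProduct.inr u.right) =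
        SemidirectProduct.inl ((φ ^ j) y) := by
      rw [← hj]
      unfold cj
      rw [← map_inv]
      have := SemidirectProduct.inl_aut_inv (φ := (Subgroup.zpowers φ).subtype) u.right y
      rw [← this]
      rfl
    have e3 : cj (SemidirectProduct.inl x : Ga φ) u =
        cj (SemidirectProduct.inl ((φ ^ j) y)) (SemidirectProduct.inl h)⁻¹ := by
      rw [← e2, cj_cj]
      conv_lhs => rw [hh]
      rw [hy, map_cj, cj_cj, ← mul_assoc]
    rw [e3]
    conv_lhs => rw [e1]
    conv_rhs => rw [e1]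
    rw [← cj_cm]
    apply comm_cj
    rw [← map_cm]
    exact (hc y j hyq).map _
  sq := by
    rintro _ ⟨x, rfl⟩ h
    have h1 : x * x = 1 := by
      apply SemidirectProduct.inl_injective (φ := (Subgroup.zpowers φ).subtype)
      rw [map_mul, map_one]; exact h
    have h2 : x = 1 := by
      apply eq_one_of_pow (p := 2) (g := x)
      · exact ho x
      · rw [pow_two]; exact h1
    rw [h2, map_one]
  sqc := by
    rintro _ ⟨x, rfl⟩ y h
    obtain ⟨m, hm⟩ := exists_pow_eq_self_of_coprime (x := x) (n := 2)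
      (Nat.Coprime.symm (ho x))
    rw [← map_mul, ← pow_two] at h
    have := h.pow_left m
    rwa [← map_pow, hm] at this

/-- the first-order conclusion in `G` for the elements of order `q` -/
theorem firstX {p : ℕ} (hp : p.Prime) (hG : ∀ g : G, Nat.Coprime (orderOf g) p)
    (ho : ∀ g : G, Nat.Coprime (orderOf g) 2)
    {φ : MulAut G} (hφ : orderOf φ = p)
    (hs : ∀ g : G, ((List.range p).map (fun i => (φ ^ i) g)).prod = 1)
    (hn : ∀ g : G, Group.IsNilpotent
      (Subgroup.closure (Set.range (fun i : Fin p => (φ ^ (i : ℕ)) g))))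
    {q : ℕ} (hq : q.Prime) (h2 : q ≠ 2)
    (triv : ∀ w : G, (∀ g : G, Commute w (cj w g)) → w = 1)
    (hc : ∀ (g : G) (i : ℕ), g ^ q = 1 → Commute (cm g ((φ ^ i) g)) g) (x g y h : G)
    (hx : x ^ q = 1) :
    Commute (cm (cm x (cj x g)) y) (cj x h) := by
  have hφp : φ ^ p = 1 := by rw [← hφ]; exact pow_orderOf_eq_one φ
  by_cases hp5 : 5 ≤ p
  · obtain ⟨r, rfl⟩ : ∃ r, p = r + 2 := ⟨p - 2, by omega⟩
    have E := envX hp hG ho hφp hs hn hq h2 hc
    have hpow := powmem hp hφp
    have three : ∀ v : Ga φ, v ∉ Nn φ → v * v * v ∉ Nn φ := by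
      intro v hv
      have := hpow v hv 3 (by norm_num) (by omega)
      rwa [pow_succ, pow_two] at this
    have two : ∀ v : Ga φ, v ∉ Nn φ → v * v ∉ Nn φ := by
      intro v hv
      have := hpow v hv 2 (by norm_num) (by omega)
      rwa [pow_two] at this
    have hne : ∃ u : Ga φ, u ∉ Nn φ := by
      refine ⟨SemidirectProduct.inr ⟨φ, Subgroup.mem_zpowers φ⟩, fun h => ?_⟩
      rw [mem_Nn] at h
      have h1 : φ = 1 := congrArg Subtype.val h
      rw [h1, orderOf_one] at hφ
      omega
    have c3 : ∀ x ∈ Xq φ q, ∀ u v, u ∉ Nn φ → v ∉ Nn φ → v⁻¹ * u ∉ Nn φ →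
        Commute (cm x (cj x v)) (cj x u) := by
      intro x hx u v hu hv huv
      have h1 : Ds (Nn φ) 1 v := by unfold Ds; rwa [inv_one, one_mul]
      have h2 : Ds (Nn φ) 1 u := by unfold Ds; rwa [inv_one, one_mul]
      have hw : cm (cm (cj x 1) (cj x v)) (cj x u) ∈ Nn φ :=
        cm_mem (cm_mem (E.cjm hx 1) (E.cjm hx v)) (E.cjm hx u)
      have hall := E.wall two three hpow (normrel hp hG hφp hs hn) hne hx h1 h2 huv
      obtain ⟨w0, hw0⟩ := hw
      rw [← hw0] at hall
      have h3 : w0 = 1 := by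
        apply triv
        intro g
        have h4 := hall (SemidirectProduct.inl g)
        rw [← map_cj] at h4
        exact Commute.of_map SemidirectProduct.inl_injective h4
      rw [h3, map_one, cj_one] at hw0
      exact cm_eq_one_iff.1 hw0.symm
    have hxX : (SemidirectProduct.inl x : Ga φ) ∈ Xq φ q :=
      ⟨⟨x, rfl⟩, by rw [← map_pow, hx, map_one]⟩
    have := E.fin c3 hpow (normrel hp hG hφp hs hn) hne
      (x := SemidirectProduct.inl x) (g := SemidirectProduct.inl g)
      (y := SemidirectProduct.inl y) (h := SemidirectProduct.inl h)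
      hxX ⟨g, rfl⟩ ⟨y, rfl⟩ ⟨h, rfl⟩
    rw [← map_cj, ← map_cm, ← map_cm, ← map_cj] at this
    exact Commute.of_map SemidirectProduct.inl_injective this
  · -- `p = 2` or `p = 3`
    have h23 : p = 2 ∨ p = 3 := by
      have := hp.two_le
      have h4 : p ≠ 4 := by rintro rfl; revert hp; decide
      omega
    have hcc : ∀ g : G, Commute g (φ g) := by
      intro g
      rcases h23 with rfl | rfl
      · have := hs g
        simp [List.range_succ] at this
        rw [eq_inv_of_mul_eq_one_right this]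
        exact (Commute.refl g).inv_right
      · have h1 := hs g
        have h2 := hs g⁻¹
        simp [List.range_succ] at h1 h2
        have e1 : (φ ^ 2) g = (g * φ g)⁻¹ := by
          apply eq_inv_of_mul_eq_one_right
          rw [← h1]; group
        have e2 : (φ ^ 2) g = (φ g * g)⁻¹ := by
          have h3 : ((φ ^ 2) g)⁻¹ = (g⁻¹ * (φ g)⁻¹)⁻¹ := by
            apply eq_inv_of_mul_eq_one_right
            rw [← h2]; group
          have h4 := inv_injective h3
          rw [h4]; group
        exact inv_injective (e1.symm.trans e2)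
    have h1 := Ab.central p hG φ hs hcc x⁻¹ (cj x g)⁻¹ y
    rw [inv_inv, inv_inv] at h1
    have h2 : cm (cm x (cj x g)) y = 1 := cm_of h1
    rw [h2]
    exact Commute.one_left _

end Pool.Agent.H59.SD
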