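import Pool.Agent.H59.SD.Tri

/-!
# Quadruples: triple commutators commute with a fourth conjugate
-/

set_option autoImplicit false

namespace Pool.Agent.H59.SD

open H81.SC (Cr cj cm cj_mul cj_inv cj_cj cj_one cj_cj_inv cj_inv_cj cj_cm cm_eq cm_eq' cj_eq cm_inv cm_mul_left
  cm_mul_right cj_of cj_eq_iff cm_eq_one_iff cm_of comm_cj comm_cj_iff comm_cj_left comm_cm cm_comm
  comm_cj_self cm_self_of cm_inv_right cm_inv_left cj_inv_of cj_mem cm_mem not_inv_mem)

variable {Γ : Type*} [Group Γ] {N : Subgroup Γ} {X : Set Γ}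

/-- different cosets -/
def Ds (N : Subgroup Γ) (g h : Γ) : Prop := g⁻¹ * h ∉ N

theorem Ds.symm {g h : Γ} (H : Ds N g h) : Ds N h g := by
  intro h1
  apply H
  have := N.inv_mem h1
  simpa using this

theorem crY {x g h : Γ} (H : Ds N g h) : Cr N (cj x g) (cj x h) :=
  ⟨g⁻¹ * h, H, Or.inl (by rw [cj_cj, mul_inv_cancel_left])⟩

namespace Env

variable (E : Env N X)
include E

theorem alt0 (three : ∀ v, v ∉ N → v * v * v ∉ N) {x u v : Γ} (hx : x ∈ X) (hu : u ∉ N)
    (hv : v ∉ N) (huv : v⁻¹ * u ∉ N) :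
    cm (cm x (cj x u)) (cj x v) = (cm (cm x (cj x v)) (cj x u))⁻¹ ∧
      cm x (cm (cj x v) (cj x u)) = (cm (cm x (cj x v)) (cj x u))⁻¹ := by
  have huv' : u⁻¹ * v ∉ N := by
    have := not_inv_mem huv
    rwa [mul_inv_rev, inv_inv] at this
  have r1 := E.R three hx hu hv huv
  have r2 := E.R three hx hv hu huv'
  set a := cj x v with had
  set b := cj x u with hbd
  have xa : Cr N x a := ⟨v, hv, Or.inl rfl⟩
  have xb : Cr N x b := ⟨u, hu, Or.inl rfl⟩
  have ab : Cr N a b := ⟨v⁻¹ * u, huv, Or.inl (by rw [had, hbd, cj_cj]; congr 1; group)⟩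
  have ha : a ∈ X := E.crX hx xa
  obtain ⟨wa0, wb0, wx0⟩ := E.K ha ab xa.symm xb.symm
  have wa : Commute (cm x (cm a b)) a := by
    rw [← cm_inv (cm a b) x]; exact wa0.inv_left
  have wb : Commute (cm x (cm a b)) b := by
    rw [← cm_inv (cm a b) x]; exact wb0.inv_left
  have e3 : cm x (cm b a) = (cm x (cm a b))⁻¹ := by
    rw [← cm_inv a b]; exact cm_inv_right (comm_cm wa wb)
  rw [e3] at r2
  have h1 : cm a (cm x b) = (cm x (cm a b))⁻¹ := eq_inv_of_mul_eq_one_left r1
  have h2 : cm b (cm x a) = cm x (cm a b) := by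
    have := eq_inv_of_mul_eq_one_left r2
    rwa [inv_inv] at this
  have h3 : cm (cm x a) b = (cm x (cm a b))⁻¹ := by rw [← h2, cm_inv]
  have h4 : cm (cm x b) a = cm x (cm a b) := by
    rw [← cm_inv a (cm x b), h1, inv_inv]
  rw [h3, h4, inv_inv]
  exact ⟨rfl, rfl⟩

theorem alt (three : ∀ v, v ∉ N → v * v * v ∉ N) {x g h k : Γ} (hx : x ∈ X) (gh : Ds N g h)
    (gk : Ds N g k) (hk : Ds N h k) :
    cm (cm (cj x g) (cj x k)) (cj x h) = (cm (cm (cj x g) (cj x h)) (cj x k))⁻¹ ∧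
      cm (cj x g) (cm (cj x h) (cj x k)) = (cm (cm (cj x g) (cj x h)) (cj x k))⁻¹ := by
  have h1 := E.alt0 three (x := cj x g) (u := g⁻¹ * k) (v := g⁻¹ * h) (E.cjX x hx g) gk gh (by
    have e : (g⁻¹ * h)⁻¹ * (g⁻¹ * k) = h⁻¹ * k := by group
    rw [e]
    exact hk)
  rw [cj_cj, cj_cj, mul_inv_cancel_left, mul_inv_cancel_left] at h1
  exact h1

/-- cyclic symmetry -/
theorem cyc (three : ∀ v, v ∉ N → v * v * v ∉ N) {x g h k : Γ} (hx : x ∈ X) (gh : Ds N g h)
    (gk : Ds N g k) (hk : Ds N h k) :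
    cm (cm (cj x h) (cj x k)) (cj x g) = cm (cm (cj x g) (cj x h)) (cj x k) := by
  have h1 := (E.alt three hx gh.symm hk gk).1
  rw [h1, E.swap (E.cjX x hx g) (crY gh) (crY gk), inv_inv]

/-- the triple commutator commutes with its entries and with commutators of its entries with cross elements -/
theorem com (three : ∀ v, v ∉ N → v * v * v ∉ N) {x g h k : Γ} (hx : x ∈ X) (gh : Ds N g h)
    (gk : Ds N g k) (hk : Ds N h k) (y : Γ) :
    (Cr N (cj x g) y → Commute (cm (cm (cj x g) (cj x h)) (cj x k)) (cm (cj x g) y)) ∧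
    (Cr N (cj x h) y → Commute (cm (cm (cj x g) (cj x h)) (cj x k)) (cm (cj x h) y)) ∧
    (Cr N (cj x k) y → Commute (cm (cm (cj x g) (cj x h)) (cj x k)) (cm (cj x k) y)) := by
  have base : ∀ {g h k : Γ}, Ds N g h → Ds N g k → Ds N h k → Cr N (cj x g) y →
      Commute (cm (cm (cj x g) (cj x h)) (cj x k)) (cm (cj x g) y) := by
    intro g h k gh gk hk hy
    have h1 := E.T' (E.cjX x hx g) (crY gh) (crY hk) hy
    rw [(E.alt three hx gh gk hk).2] at h1
    have h2 := h1.inv_left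
    rwa [inv_inv] at h2
  refine ⟨fun hy => base gh gk hk hy, fun hy => ?_, fun hy => ?_⟩
  · rw [← E.cyc three hx gh gk hk]
    exact base hk gh.symm gk.symm hy
  · rw [← E.cyc three hx gh gk hk, ← E.cyc three hx hk gh.symm gk.symm]
    exact base gk.symm hk.symm gh hy

/-- swapping the last two entries of a fourfold commutator -/
theorem f4 (three : ∀ v, v ∉ N → v * v * v ∉ N) {x g h k l : Γ} (hx : x ∈ X) (gh : Ds N g h)
    (gk : Ds N g k) (gl : Ds N g l) (hk : Ds N h k) (hl : Ds N h l) (kl : Ds N k l) :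
    cm (cm (cm (cj x g) (cj x h)) (cj x l)) (cj x k) =
      (cm (cm (cm (cj x g) (cj x h)) (cj x k)) (cj x l))⁻¹ ∧
    Commute (cm (cm (cj x g) (cj x h)) (cj x k)) (cm (cm (cj x g) (cj x h)) (cj x l)) ∧
    Commute (cm (cm (cj x g) (cj x h)) (cj x k))
      (cm (cm (cm (cj x g) (cj x h)) (cj x k)) (cj x l)) ∧
    Commute (cm (cm (cj x g) (cj x h)) (cj x l))
      (cm (cm (cm (cj x g) (cj x h)) (cj x k)) (cj x l)) := by
  have haX : cj x g ∈ X := E.cjX x hx g
  have hbX : cj x h ∈ X := E.cjX x hx h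
  have hbN : cj x h ∈ N := E.sub _ hbX
  have Kw := E.K haX (crY gh) (crY gk) (crY hk)
  have Kw2 := E.K haX (crY gh) (crY gl) (crY hl)
  have Km := E.K haX (crY gk) (crY gl) (crY kl)
  have Cw := E.com three hx gh gk hk
  have Cw2 := E.com three hx gh gl hl
  have em := E.alt three hx gk gl kl
  have ew2 := E.alt three hx gh gl hl
  have zn := E.T1 haX (crY gh) (crY gk)
  have zk := E.T1 haX (crY gh) (crY gl)
  have Dk : Ds N (g * cj x h) k := by
    intro h1
    apply gk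
    have e : (g * cj x h)⁻¹ * k = (cj x h)⁻¹ * (g⁻¹ * k) := by group
    rw [e] at h1
    exact (N.mul_mem_cancel_left (N.inv_mem hbN)).1 h1
  have Dl : Ds N (g * cj x h) l := by
    intro h1
    apply gl
    have e : (g * cj x h)⁻¹ * l = (cj x h)⁻¹ * (g⁻¹ * l) := by group
    rw [e] at h1
    exact (N.mul_mem_cancel_left (N.inv_mem hbN)).1 h1
  have e5 := (E.alt three hx Dk Dl kl).1
  rw [← cj_cj] at e5
  have Ccd : Commute (cm (cm (cj x g) (cj x h)) (cj x k)) (cm (cj x k) (cj x l)) :=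
    (Cw _).2.2 (crY kl)
  have Cdc : Commute (cm (cm (cj x g) (cj x h)) (cj x l)) (cm (cj x k) (cj x l)) := by
    have := (Cw2 (cj x k)).2.2 (crY kl.symm)
    rw [← cm_inv (cj x k) (cj x l)] at this
    have h2 := this.inv_right
    rwa [inv_inv] at h2
  have Cbd : Commute (cm (cm (cj x g) (cj x h)) (cj x k)) (cm (cj x h) (cj x l)) :=
    (Cw _).2.1 (crY hl)
  set a := cj x g with had
  set b := cj x h with hbd
  set c := cj x k with hcd
  set d := cj x l with hdd
  set z := cm a b with hz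
  set w := cm z c with hw
  set w2 := cm z d with hw2
  set n := cm a c with hn
  set m := cm n d with hm
  set F := cm w d with hF
  set G := cm w2 c with hG
  -- commutations
  have c1 : Commute w m := by
    have h1 : Commute w (cm a (cm c d)) := comm_cm Kw.1 Ccd
    rw [em.2] at h1
    have h2 := h1.inv_right
    rwa [inv_inv] at h2
  have c2 : Commute w2 m := by
    have h1 : Commute w2 (cm a (cm c d)) := comm_cm Kw2.1 Cdc
    rw [em.2] at h1
    have h2 := h1.inv_right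
    rwa [inv_inv] at h2
  have c3 : Commute m G := comm_cm c2.symm Km.2.1
  have c4 : Commute w w2 := by
    have h1 : Commute w (cm a (cm b d)) := comm_cm Kw.1 Cbd
    rw [ew2.2] at h1
    have h2 := h1.inv_right
    rwa [inv_inv] at h2
  have c5 : Commute w G := comm_cm c4 Kw.2.2
  have c6 : Commute w2 F := comm_cm c4.symm Kw2.2.2
  -- the two computations
  have s1 : cm (cm (cj a b) c) d = m * F := by
    rw [cj_eq a b, ← hz, cm_mul_left a z c, ← hn, ← hw, cj_of zn.symm, cm_mul_left n w d,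
      ← hm, ← hF, cj_of c1.symm]
  have s2 : cm (cm (cj a b) d) c = m⁻¹ * G := by
    rw [cj_eq a b, ← hz, cm_mul_left a z d, ← hw2, cj_of zk.symm, cm_mul_left _ w2 c, em.1,
      ← hG, cj_of c2.symm.inv_left]
  rw [s1, s2, mul_inv_rev] at e5
  have h1 : G = F⁻¹ := by
    have h2 : m⁻¹ * G = G * m⁻¹ := c3.inv_left.eq
    rw [h2] at e5
    exact mul_right_cancel e5
  refine ⟨h1, c4, ?_, c6⟩
  have h2 : F = G⁻¹ := by rw [h1, inv_inv]
  rw [h2]
  exact c5.inv_right

theorem jj (three : ∀ v, v ∉ N → v * v * v ∉ N) {x g h k l : Γ} (hx : x ∈ X) (gh : Ds N g h)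
    (gk : Ds N g k) (gl : Ds N g l) (hk : Ds N h k) (hl : Ds N h l) (kl : Ds N k l) :
    cm (cm (cj x g) (cj x h)) (cm (cj x k) (cj x l)) =
      cm (cm (cm (cj x g) (cj x h)) (cj x k)) (cj x l) *
        cm (cm (cm (cj x g) (cj x h)) (cj x k)) (cj x l) := by
  have haX : cj x g ∈ X := E.cjX x hx g
  have Cw := E.com three hx gh gk hk
  have Cw2 := E.com three hx gh gl hl
  obtain ⟨h1, c4, c7, c6⟩ := E.f4 three hx gh gk gl hk hl kl
  have Ccd : Commute (cm (cm (cj x g) (cj x h)) (cj x k)) (cm (cj x k) (cj x l)) :=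
    (Cw _).2.2 (crY kl)
  have Cdc : Commute (cm (cm (cj x g) (cj x h)) (cj x l)) (cm (cj x k) (cj x l)) := by
    have := (Cw2 (cj x k)).2.2 (crY kl.symm)
    rw [← cm_inv (cj x k) (cj x l)] at this
    have h2 := this.inv_right
    rwa [inv_inv] at h2
  have cB := E.pair (E.cjX x hx k) (crY (x := x) kl)
  set a := cj x g with had
  set b := cj x h with hbd
  set c := cj x k with hcd
  set d := cj x l with hdd
  set z := cm a b with hz
  set w := cm z c with hw
  set w2 := cm z d with hw2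
  set F := cm w d with hF
  set G := cm w2 c with hG
  set B := cm c d with hB
  have c8 : Commute G B := cm_comm Cdc cB.1.symm
  have t1 : cj z (c * d) = z * w2 * (w * F) := by
    rw [← cj_cj, cj_eq z c, cj_mul, cj_eq z d, cj_eq w d]
  have t2 : cj z (d * c) = z * w * (w2 * G) := by
    rw [← cj_cj, cj_eq z d, cj_mul, cj_eq z c, cj_eq w2 c]
  have t3 : cj z (c * d) = cj (cj z (d * c)) B := by
    rw [cj_cj]
    congr 1
    rw [hB]
    unfold cm
    group
  rw [t1, t2, cj_mul, cj_mul, cj_mul, cj_of Ccd, cj_of Cdc, cj_of c8, cj_eq z B] at t3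
  -- `z w2 w F = z [z,B] w w2 G`
  have t4 : cm z B = w2 * w * F * (w * (w2 * G))⁻¹ := by
    have : z * w2 * (w * F) = z * (cm z B * (w * (w2 * G))) := by rw [t3]; group
    have h2 : w2 * (w * F) = cm z B * (w * (w2 * G)) := by
      apply mul_left_cancel (a := z)
      rw [← this]; group
    rw [mul_assoc w2 w F, h2]; group
  rw [t4, h1]
  have e1 : w2 * w = w * w2 := c4.symm.eq
  have e2 : (w * (w2 * F⁻¹))⁻¹ = F * (w2⁻¹ * w⁻¹) := by group
  rw [e2, e1]
  have e3 : F * (F * (w2⁻¹ * w⁻¹)) = w2⁻¹ * w⁻¹ * (F * F) := by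
    have h3 : Commute (w2⁻¹ * w⁻¹) (F * F) :=
      (c6.inv_left.mul_right c6.inv_left).mul_left (c7.inv_left.mul_right c7.inv_left)
    rw [← mul_assoc, ← h3.eq]
  rw [mul_assoc (w * w2), e3]
  group

theorem quad (three : ∀ v, v ∉ N → v * v * v ∉ N) {x g h k l : Γ} (hx : x ∈ X) (gh : Ds N g h)
    (gk : Ds N g k) (gl : Ds N g l) (hk : Ds N h k) (hl : Ds N h l) (kl : Ds N k l) :
    Commute (cm (cm (cj x g) (cj x h)) (cj x k)) (cj x l) := by
  have j1 := E.jj three hx gh gk gl hk hl kl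
  have j2 := E.jj three hx kl gk.symm hk.symm gl.symm hl.symm gh
  -- `F' = F`
  have e1 : cm (cm (cj x k) (cj x l)) (cj x g) = cm (cm (cj x g) (cj x k)) (cj x l) :=
    E.cyc three hx gk gl kl
  have e2 := (E.f4 three hx gk gl gh kl hk.symm hl.symm).1
  have e3 := (E.alt three hx gh gk hk).1
  obtain ⟨_, _, c7, _⟩ := E.f4 three hx gh gk gl hk hl kl
  have e4 : cm (cm (cm (cj x g) (cj x k)) (cj x h)) (cj x l) =
      (cm (cm (cm (cj x g) (cj x h)) (cj x k)) (cj x l))⁻¹ := by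
    rw [e3]
    exact cm_inv_left c7.symm
  have e5 : cm (cm (cm (cj x g) (cj x k)) (cj x l)) (cj x h) =
      cm (cm (cm (cj x g) (cj x h)) (cj x k)) (cj x l) := by
    rw [e4] at e2
    have := congrArg (fun t => t⁻¹) e2
    simpa using this.symm
  rw [e1, e5, ← cm_inv, j1] at j2
  apply cm_eq_one_iff.1
  have hN : cm (cm (cm (cj x g) (cj x h)) (cj x k)) (cj x l) ∈ N :=
    cm_mem (cm_mem (cm_mem (E.cjm hx g) (E.cjm hx h)) (E.cjm hx k)) (E.cjm hx l)
  apply E.sq _ hN
  apply E.sq _ (N.mul_mem hN hN)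
  conv_lhs => lhs; rw [← j2]
  exact inv_mul_cancel _

end Env

end Pool.Agent.H59.SD
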