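import Pool.Agent.H59.SD.Rel
import Pool.Agent.H81.SC.Tri

/-!
# Cross triples have class two (law restricted to `X`)
-/

set_option autoImplicit false

namespace Pool.Agent.H59.SD

open H81.SC (Cr cj cm cj_mul cj_inv cj_cj cj_one cj_cj_inv cj_inv_cj cj_cm cm_eq cm_eq' cj_eq cm_inv cm_mul_left
  cm_mul_right cj_of cj_eq_iff cm_eq_one_iff cm_of comm_cj comm_cj_iff comm_cj_left comm_cm cm_comm
  comm_cj_self cm_self_of cm_inv_right cm_inv_left cj_inv_of cj_mem cm_mem not_inv_mem)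

variable {Γ : Type*} [Group Γ] {N : Subgroup Γ} {X : Set Γ}

namespace Env

variable (E : Env N X)
include E

theorem facs {x a u : Γ} (hx : x ∈ X) (xa : Cr N x a) (hu : u ∉ N) (ab : Cr N a (cj x u))
    (xc : Cr N x (cj a u)) :
    Commute (cm x a) (cm (cm x (cj x u)) (cj a u)) ∧
    Commute (cm a x) (cm (cm a (cj x u)) (cj a u)) ∧
    Commute (cm (cj x u) a) (cm (cm (cj x u) x) (cj a u)) := by
  have ha : a ∈ X := E.crX hx xa
  have hb : cj x u ∈ X := E.cjX x hx u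
  have xb : Cr N x (cj x u) := ⟨u, hu, Or.inl rfl⟩
  have ac : Cr N a (cj a u) := ⟨u, hu, Or.inl rfl⟩
  have bc : Cr N (cj x u) (cj a u) := xa.conj E.normal u
  have f1 := E.F1 hx xa hu ab xc
  have f2 := E.F2 hx xa hu ab
  have f3 := E.F1 (x := cj x u) (a := cj a u) (u := u⁻¹) hb bc (not_inv_mem hu)
    (by rw [cj_cj_inv]; exact xc.symm) (by rw [cj_cj_inv]; exact ab.symm)
  rw [cj_cj_inv, cj_cj_inv] at f3
  refine ⟨E.S2 hx xa xc xb bc.symm f1, E.S2 ha xa.symm ac ab bc.symm f2, ?_⟩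
  exact (E.six hb bc ab.symm xb.symm ac.symm xc.symm xa.symm f3).2.2.2.1

theorem relU {x a u : Γ} (hx : x ∈ X) (xa : Cr N x a) (hu : u ∉ N) (ab : Cr N a (cj x u))
    (xc : Cr N x (cj a u)) :
    (cm a (cm x (cj x u)) * cm x (cm a (cj x u))) *
      (cm a (cm (cm x (cj x u)) (cj a u)) * cm a (cm x (cj a u)) *
        cm x (cm (cm a (cj x u)) (cj a u)) * cm x (cm a (cj a u))) = 1 := by
  have ha : a ∈ X := E.crX hx xa
  have xb : Cr N x (cj x u) := ⟨u, hu, Or.inl rfl⟩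
  have ac : Cr N a (cj a u) := ⟨u, hu, Or.inl rfl⟩
  have bc : Cr N (cj x u) (cj a u) := xa.conj E.normal u
  obtain ⟨f1, f2, f3⟩ := E.facs hx xa hu ab xc
  refine E.rel hx xa xb xc ab ac bc ?_ f1 f2 f3
  rw [← cj_mul x a u]
  exact comm_cj_self (E.pair (E.mulX x hx a ha (E.pair hx xa).1 (E.pair hx xa).2) ⟨u, hu, Or.inl rfl⟩).1

theorem R0 {x a u : Γ} (hx : x ∈ X) (xa : Cr N x a) (hu : u ∉ N) (ab : Cr N a (cj x u))
    (xc : Cr N x (cj a u)) :
    cm a (cm x (cj x u)) * cm x (cm a (cj x u)) = 1 := by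
  have ha : a ∈ X := E.crX hx xa
  have hb : cj x u ∈ X := E.cjX x hx u
  have xb : Cr N x (cj x u) := ⟨u, hu, Or.inl rfl⟩
  have ac : Cr N a (cj a u) := ⟨u, hu, Or.inl rfl⟩
  have bc : Cr N (cj x u) (cj a u) := xa.conj E.normal u
  have r1 := E.relU hx xa hu ab xc
  have r2 := E.relU (x := x) (a := a⁻¹) (u := u) hx xa.inv_right hu ab.inv_left
    (by rw [cj_inv]; exact xc.inv_right)
  rw [cj_inv] at r2
  obtain ⟨Fx, Fa, Fb⟩ := E.facs hx xa hu ab xc
  obtain ⟨fb1, fb2, fb3, fb4, fb5, fb6⟩ := E.six hb ab.symm xb.symm bc xa.symm ac xc Fb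
  set b := cj x u with hbd
  set c := cj a u with hcd
  obtain ⟨a1x, a1a, a1b, a1c⟩ := E.rcen hx xa xb xc ab ac bc Fx Fb
  have zp := E.pair hx xa
  have np := E.pair hx xb
  have Pp := E.pair hx xc
  have Wp := E.pair ha ab
  have Qp := E.pair ha ac
  obtain ⟨rx, rb, rc⟩ := E.K hx xb xc bc
  obtain ⟨sa, sb, sc⟩ := E.K ha ab ac bc
  obtain ⟨vx0, vb0, va0⟩ := E.K hx xb xa ab.symm
  obtain ⟨ux0, uc0, ua0⟩ := E.K hx xc xa ac.symm
  obtain ⟨wa0, wb0, wx0⟩ := E.K ha ab xa.symm xb.symm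
  have va : Commute (cm a (cm x b)) a := by
    rw [← cm_inv (cm x b) a]; exact va0.inv_left
  have vx : Commute (cm a (cm x b)) x := by
    rw [← cm_inv (cm x b) a]; exact vx0.inv_left
  have ux : Commute (cm a (cm x c)) x := by
    rw [← cm_inv (cm x c) a]; exact ux0.inv_left
  have uc : Commute (cm a (cm x c)) c := by
    rw [← cm_inv (cm x c) a]; exact uc0.inv_left
  have ua : Commute (cm a (cm x c)) a := by
    rw [← cm_inv (cm x c) a]; exact ua0.inv_left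
  have wa : Commute (cm x (cm a b)) a := by
    rw [← cm_inv (cm a b) x]; exact wa0.inv_left
  have wb : Commute (cm x (cm a b)) b := by
    rw [← cm_inv (cm a b) x]; exact wb0.inv_left
  have wx : Commute (cm x (cm a b)) x := by
    rw [← cm_inv (cm a b) x]; exact wx0.inv_left
  have vb : Commute (cm a (cm x b)) b := by
    rw [← cm_inv (cm x b) a]; exact vb0.inv_left
  -- rewrite the second relation
  have e1 : cm a⁻¹ (cm x b) = (cm a (cm x b))⁻¹ := cm_inv_left va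
  have e2 : cm a⁻¹ b = (cm a b)⁻¹ := cm_inv_left Wp.1
  have e3 : cm x (cm a b)⁻¹ = (cm x (cm a b))⁻¹ := cm_inv_right (comm_cm wa wb)
  have e4 : cm (cm x b) c⁻¹ = (cm (cm x b) c)⁻¹ := cm_inv_right rc
  have e5 : cm a⁻¹ (cm (cm x b) c)⁻¹ = cm a (cm (cm x b) c) := by
    have h1 : cm a (cm (cm x b) c)⁻¹ = (cm a (cm (cm x b) c))⁻¹ :=
      cm_inv_right (comm_cm (comm_cm a1x a1b) a1c)
    rw [cm_inv_left (by rw [h1]; exact a1a.inv_left), h1, inv_inv]
  have e6 : cm x c⁻¹ = (cm x c)⁻¹ := cm_inv_right Pp.2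
  have e7 : cm a⁻¹ (cm x c)⁻¹ = cm a (cm x c) := by
    have h1 : cm a (cm x c)⁻¹ = (cm a (cm x c))⁻¹ := cm_inv_right (comm_cm ux uc)
    rw [cm_inv_left (by rw [h1]; exact ua.inv_left), h1, inv_inv]
  have e8 : cm (cm a b)⁻¹ c⁻¹ = cm (cm a b) c := by
    have h1 : cm (cm a b) c⁻¹ = (cm (cm a b) c)⁻¹ := cm_inv_right sc
    rw [cm_inv_left (by rw [h1]; exact (comm_cm sa sb).inv_left), h1, inv_inv]
  have e9 : cm a⁻¹ c⁻¹ = cm a c := by
    have h1 : cm a c⁻¹ = (cm a c)⁻¹ := cm_inv_right Qp.2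
    rw [cm_inv_left (by rw [h1]; exact Qp.1.inv_left), h1, inv_inv]
  rw [e1, e2, e3, e4, e5, e6, e7, e8, e9] at r2
  have vw : Commute (cm a (cm x b)) (cm x (cm a b)) :=
    comm_cm vx (comm_cm va vb)
  rw [(vw.inv_left.inv_right).eq, ← mul_inv_rev] at r2
  have h1 := eq_inv_of_mul_eq_one_right r1
  have h2 := eq_inv_of_mul_eq_one_right r2
  rw [h1, inv_inv] at h2
  apply E.sq _ (N.mul_mem (cm_mem (E.sub _ ha) (cm_mem (E.sub _ hx) (E.sub _ hb))) (cm_mem (E.sub _ hx) (cm_mem (E.sub _ ha) (E.sub _ hb))))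
  have h3 : (cm a (cm x b) * cm x (cm a b)) * (cm a (cm x b) * cm x (cm a b)) =
      (cm a (cm x b) * cm x (cm a b)) * (cm a (cm x b) * cm x (cm a b))⁻¹ := by rw [h2]
  rw [h3, mul_inv_cancel]

/-- The relation for all cross triples of genuine conjugates. -/
theorem R (three : ∀ v, v ∉ N → v * v * v ∉ N) {x u v : Γ} (hx : x ∈ X) (hu : u ∉ N)
    (hv : v ∉ N) (huv : v⁻¹ * u ∉ N) :
    cm (cj x v) (cm x (cj x u)) * cm x (cm (cj x v) (cj x u)) = 1 := by
  have ha : cj x v ∈ X := E.cjX x hx v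
  have xa : Cr N x (cj x v) := ⟨v, hv, Or.inl rfl⟩
  have ab : Cr N (cj x v) (cj x u) := ⟨v⁻¹ * u, huv, Or.inl (by rw [cj_cj]; congr 1; group)⟩
  by_cases h : v * u ∈ N
  · -- use the base `a`
    have hvv : v⁻¹ * (v⁻¹ * u) ∉ N := by
      intro h1
      apply three v hv
      have h2 := N.mul_mem h (N.inv_mem h1)
      have e : v * u * (v⁻¹ * (v⁻¹ * u))⁻¹ = v * v * v := by simp [mul_assoc]
      rwa [e] at h2
    have e1 : cj (cj x v) (v⁻¹ * u) = cj x u := by rw [cj_cj]; congr 1; group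
    have xb : Cr N x (cj x u) := ⟨u, hu, Or.inl rfl⟩
    have h3 := E.R0 (x := cj x v) (a := x) (u := v⁻¹ * u) ha xa.symm huv
      (by rw [e1]; exact xb)
      ⟨v⁻¹ * (v⁻¹ * u), hvv, Or.inl (by rw [cj_cj]; congr 1; group)⟩
    rw [e1] at h3
    exact mul_eq_one_comm.1 h3
  · exact E.R0 hx xa hu ab ⟨v * u, h, Or.inl (by rw [cj_cj])⟩

/-- cross triples have class two -/
theorem C3 (three : ∀ v, v ∉ N → v * v * v ∉ N) (cube : ∀ x ∈ N, x * x * x = 1 → x = 1)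
    {x u v : Γ} (hx : x ∈ X) (hu : u ∉ N) (hv : v ∉ N) (huv : v⁻¹ * u ∉ N) :
    Commute (cm x (cj x v)) (cj x u) := by
  have huv' : u⁻¹ * v ∉ N := by
    have := not_inv_mem huv
    rwa [mul_inv_rev, inv_inv] at this
  have r1 := E.R three hx hu hv huv
  have r2 := E.R three hx hv hu huv'
  set a := cj x v with had
  set b := cj x u with hbd
  have xa : Cr N x a := ⟨v, hv, Or.inl rfl⟩
  have xb : Cr N x b := ⟨u, hu, Or.inl rfl⟩
  have ab : Cr N a b := ⟨v⁻¹ * u, huv, Or.inl (by rw [had, hbd, cj_cj]; congr 1; group)⟩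
  have ha : a ∈ X := E.crX hx xa
  have hb : b ∈ X := E.crX hx xb
  have j := E.jac hx xa xb ab
  obtain ⟨wa0, wb0, wx0⟩ := E.K ha ab xa.symm xb.symm
  have wa : Commute (cm x (cm a b)) a := by
    rw [← cm_inv (cm a b) x]; exact wa0.inv_left
  have wb : Commute (cm x (cm a b)) b := by
    rw [← cm_inv (cm a b) x]; exact wb0.inv_left
  have e3 : cm x (cm b a) = (cm x (cm a b))⁻¹ := by
    rw [← cm_inv a b]; exact cm_inv_right (comm_cm wa wb)
  rw [e3] at r2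
  -- `[a,[x,b]] = w⁻¹`, `[b,[x,a]] = w`
  have h1 : cm a (cm x b) = (cm x (cm a b))⁻¹ := eq_inv_of_mul_eq_one_left r1
  have h2 : cm b (cm x a) = cm x (cm a b) := by
    have := eq_inv_of_mul_eq_one_left r2
    rwa [inv_inv] at this
  have h3 : cm (cm x a) b = (cm x (cm a b))⁻¹ := by rw [← h2, cm_inv]
  have h4 : cm (cm x b) a = cm x (cm a b) := by
    rw [← cm_inv a (cm x b), h1, inv_inv]
  rw [h3, h4] at j
  have h5 : cm x (cm a b) = 1 := by
    apply cube _ (cm_mem (E.sub _ hx) (cm_mem (E.sub _ ha) (E.sub _ hb)))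
    have : cm x (cm a b) * cm x (cm a b) * cm x (cm a b) =
        cm x (cm a b) * (cm x (cm a b) * ((cm x (cm a b))⁻¹ * (cm x (cm a b))⁻¹)) := by
      rw [← j]; group
    rw [this]; group
  apply cm_eq_one_iff.1
  rw [h3, h5, inv_one]

end Env

end Pool.Agent.H59.SD
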